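import Pool.Agent.Lib.MP_d0893a_co.Ent.Tower

/-!
# Weak coordinates carry little information (problem MP_d0893a_co)

Proof. `rel p ≤ Σ_a p a (k p a - 1) = k Σ_a p a ^ 2 - 1` (`log z ≤ z - 1`), `p = pr A J x i`.
For `y ∈ fib A J x` let `S_y = {b : update y i b ∈ A}`, `a_y = |S_y| = |fib A (univ.erase i) y|`.
Since `i ∉ J`, lines in direction `i` stay in the fiber, so
`p a = (1/N) Σ_{y ∈ fib} 1[a ∈ S_y] / a_y` with `N = |fib A J x|`. Hence
`k Σ p a ^ 2 = (1/N^2) Σ_{y,y'} k |S_y ∩ S_y'| / (a_y a_y') ≤ (1/N^2) Σ_{y,y'} k / max (a_y, a_y')`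
and `k / max (a_y, a_y') - 1 ≤ gs y * gs y'` (it is `0` if one of `a_y, a_y'` is `k`, otherwise at
most `k/a_y ≤ (k/a_y)(k/a_y')` for the larger one).
-/

open Finset

namespace Pool.Agent.Grid.Ent

variable {k n : ℕ}

theorem gs_nonneg (A : Finset (Fin n → Fin k)) (i : Fin n) (y : Fin n → Fin k) :
    0 ≤ gs A i y := by
  unfold gs
  split_ifs
  · positivity
  · exact le_rfl

theorem Gs_nonneg (A : Finset (Fin n → Fin k)) (J : Finset (Fin n)) (x : Fin n → Fin k)
    (i : Fin n) : 0 ≤ Gs A J x i := by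
  unfold Gs
  exact div_nonneg (Finset.sum_nonneg fun y _ => gs_nonneg A i y) (by positivity)

private theorem line_eq {A : Finset (Fin n → Fin k)} {i : Fin n} {y z z' : Fin n → Fin k}
    (hz : z ∈ fib A (univ.erase i) y) (hz' : z' ∈ fib A (univ.erase i) y) (h : z i = z' i) :
    z = z' := by
  funext j
  by_cases hj : j = i
  · rw [hj]; exact h
  · have hj' : j ∈ (univ : Finset (Fin n)).erase i := Finset.mem_erase.2 ⟨hj, mem_univ _⟩
    unfold fib at hz hz'
    rw [(Finset.mem_filter.1 hz).2 j hj', (Finset.mem_filter.1 hz').2 j hj']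

private theorem line_card_le (A : Finset (Fin n → Fin k)) (i : Fin n) (y : Fin n → Fin k) :
    (fib A (univ.erase i) y).card ≤ k := by
  have h := Finset.card_le_card_of_injOn (s := fib A (univ.erase i) y)
    (t := (univ : Finset (Fin k))) (fun z => z i) (fun z _ => Finset.mem_coe.2 (mem_univ _))
    (fun z hz z' hz' h => line_eq (Finset.mem_coe.1 hz) (Finset.mem_coe.1 hz') h)
  simpa using h

private theorem line_pr_le {A : Finset (Fin n → Fin k)} (i : Fin n) (y : Fin n → Fin k)
    (a : Fin k) : pr A (univ.erase i) y i a ≤ 1 / (fib A (univ.erase i) y).card := by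
  unfold pr
  refine div_le_div_of_nonneg_right ?_ (by positivity)
  have : ((fib A (univ.erase i) y).filter fun z => z i = a).card ≤ 1 := by
    rw [Finset.card_le_one]
    intro z hz z' hz'
    rw [Finset.mem_filter] at hz hz'
    exact line_eq hz.1 hz'.1 (hz.2.trans hz'.2.symm)
  exact_mod_cast this

private theorem line_pair_aux {A : Finset (Fin n → Fin k)} (i : Fin n) {y y' : Fin n → Fin k}
    (hy : y ∈ A) :
    ∑ a, pr A (univ.erase i) y i a * pr A (univ.erase i) y' i a
      ≤ 1 / (fib A (univ.erase i) y').card := by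
  calc ∑ a, pr A (univ.erase i) y i a * pr A (univ.erase i) y' i a
      ≤ ∑ a, pr A (univ.erase i) y i a * (1 / (fib A (univ.erase i) y').card) :=
        Finset.sum_le_sum fun a _ =>
          mul_le_mul_of_nonneg_left (line_pr_le i y' a) (pr_nonneg A _ y i a)
    _ = 1 / (fib A (univ.erase i) y').card := by
        rw [← Finset.sum_mul, sum_pr _ hy, one_mul]

private theorem line_pair (hk : 0 < k) {A : Finset (Fin n → Fin k)} (i : Fin n)
    {y y' : Fin n → Fin k} (hy : y ∈ A) (hy' : y' ∈ A) :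
    k * ∑ a, pr A (univ.erase i) y i a * pr A (univ.erase i) y' i a
      ≤ 1 + gs A i y * gs A i y' := by
  have hk' : (0 : ℝ) < k := by exact_mod_cast hk
  have hg0 := mul_nonneg (gs_nonneg A i y) (gs_nonneg A i y')
  have h1 := line_pair_aux (A := A) i (y := y) (y' := y') hy
  have h2 := line_pair_aux (A := A) i (y := y') (y' := y) hy'
  have h2' : ∑ a, pr A (univ.erase i) y i a * pr A (univ.erase i) y' i a
      ≤ 1 / (fib A (univ.erase i) y).card := by
    refine le_trans (le_of_eq (Finset.sum_congr rfl fun a _ => mul_comm _ _)) h2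
  have hp := fib_card_pos (univ.erase i) hy
  have hp' := fib_card_pos (univ.erase i) hy'
  have hc := line_card_le A i y
  have hc' := line_card_le A i y'
  by_cases hlt : (fib A (univ.erase i) y).card < k
  swap
  · have heq : ((fib A (univ.erase i) y).card : ℝ) = k := by
      exact_mod_cast le_antisymm hc (not_lt.1 hlt)
    rw [heq] at h2'
    have h3 := mul_le_mul_of_nonneg_left h2' hk'.le
    have h4 : (k : ℝ) * (1 / k) = 1 := by field_simp
    rw [h4] at h3
    linarith
  by_cases hlt' : (fib A (univ.erase i) y').card < k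
  swap
  · have heq : ((fib A (univ.erase i) y').card : ℝ) = k := by
      exact_mod_cast le_antisymm hc' (not_lt.1 hlt')
    rw [heq] at h1
    have h3 := mul_le_mul_of_nonneg_left h1 hk'.le
    have h4 : (k : ℝ) * (1 / k) = 1 := by field_simp
    rw [h4] at h3
    linarith
  have hgy : gs A i y = (k : ℝ) / (fib A (univ.erase i) y).card := by
    unfold gs; rw [if_pos hlt]
  have hgy' : gs A i y' = (k : ℝ) / (fib A (univ.erase i) y').card := by
    unfold gs; rw [if_pos hlt']
  have h5 : (1 : ℝ) ≤ (k : ℝ) / (fib A (univ.erase i) y).card := by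
    rw [one_le_div hp]
    exact_mod_cast hc
  have h6 : (k : ℝ) * ∑ a, pr A (univ.erase i) y i a * pr A (univ.erase i) y' i a
      ≤ (k : ℝ) / (fib A (univ.erase i) y').card := by
    have h3 := mul_le_mul_of_nonneg_left h1 hk'.le
    refine h3.trans (le_of_eq ?_)
    ring
  have h7 : (0 : ℝ) ≤ (k : ℝ) / (fib A (univ.erase i) y').card := by positivity
  rw [hgy, hgy']
  nlinarith

private theorem pr_eq_mean {A : Finset (Fin n → Fin k)} {J : Finset (Fin n)}
    {x : Fin n → Fin k} {i : Fin n} (hi : i ∉ J) (a : Fin k) :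
    pr A J x i a = (∑ y ∈ fib A J x, pr A (univ.erase i) y i a) / (fib A J x).card := by
  have hfib : ∀ y ∈ fib A J x, fib (fib A J x) (univ.erase i) y = fib A (univ.erase i) y := by
    intro y hy
    unfold fib at hy ⊢
    ext z
    simp only [Finset.mem_filter] at hy ⊢
    constructor
    · rintro ⟨⟨hz, _⟩, h⟩; exact ⟨hz, h⟩
    · rintro ⟨hz, h⟩
      refine ⟨⟨hz, fun j hj => ?_⟩, h⟩
      have hji : j ≠ i := fun h0 => hi (h0 ▸ hj)
      rw [h j (Finset.mem_erase.2 ⟨hji, mem_univ _⟩), hy.2 j hj]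
  have h1 := mean_fib (fib A J x) (univ.erase i) (fun z => if z i = a then (1 : ℝ) else 0)
  unfold mean at h1
  have h2 : (∑ z ∈ fib A J x, if z i = a then (1 : ℝ) else 0)
      = (((fib A J x).filter fun z => z i = a).card : ℝ) := by
    rw [Finset.sum_boole]
  rw [h2] at h1
  change (((fib A J x).filter fun z => z i = a).card : ℝ) / (fib A J x).card = _
  rw [← h1]
  congr 1
  refine Finset.sum_congr rfl (fun y hy => ?_)
  beta_reduce
  rw [hfib y hy, Finset.sum_boole]
  rfl

theorem rel_pr_le (hk : 0 < k) {A : Finset (Fin n → Fin k)} {J : Finset (Fin n)}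
    {x : Fin n → Fin k} (hx : x ∈ A) {i : Fin n} (hi : i ∉ J) :
    rel (pr A J x i) ≤ Gs A J x i ^ 2 := by
  have hk' : (0 : ℝ) < k := by exact_mod_cast hk
  have h1 : rel (pr A J x i) ≤ k * ∑ a, pr A J x i a * pr A J x i a - 1 := by
    unfold rel
    have h2 : ∀ a, pr A J x i a * Real.log (k * pr A J x i a)
        ≤ k * (pr A J x i a * pr A J x i a) - pr A J x i a := by
      intro a
      rcases (pr_nonneg A J x i a).eq_or_lt with h0 | hpos
      · rw [← h0]; simp
      · have := Real.log_le_sub_one_of_pos (mul_pos hk' hpos)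
        have h3 := mul_le_mul_of_nonneg_left this hpos.le
        linarith
    refine (Finset.sum_le_sum fun a _ => h2 a).trans ?_
    rw [Finset.sum_sub_distrib, sum_pr J hx, ← Finset.mul_sum]
  set N : ℝ := ((fib A J x).card : ℝ) with hN
  have hNpos : 0 < N := fib_card_pos J hx
  have h3 : ∑ a, pr A J x i a * pr A J x i a = (∑ y ∈ fib A J x, ∑ y' ∈ fib A J x,
      ∑ a, pr A (univ.erase i) y i a * pr A (univ.erase i) y' i a) / (N * N) := by
    have h4 : ∀ a, pr A J x i a * pr A J x i a = (∑ y ∈ fib A J x, ∑ y' ∈ fib A J x,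
        pr A (univ.erase i) y i a * pr A (univ.erase i) y' i a) / (N * N) := by
      intro a
      rw [pr_eq_mean hi a, ← hN, div_mul_div_comm, Finset.sum_mul_sum]
    rw [Finset.sum_congr rfl fun a _ => h4 a, ← Finset.sum_div]
    congr 1
    rw [Finset.sum_comm]
    refine Finset.sum_congr rfl fun y _ => ?_
    rw [Finset.sum_comm]
  have hmem : ∀ y ∈ fib A J x, y ∈ A := fun y hy => (Finset.mem_filter.1 hy).1
  have h5 : k * (∑ y ∈ fib A J x, ∑ y' ∈ fib A J x,
      ∑ a, pr A (univ.erase i) y i a * pr A (univ.erase i) y' i a)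
      ≤ N * N + (∑ y ∈ fib A J x, gs A i y) * (∑ y ∈ fib A J x, gs A i y) := by
    have h6 : N * N + (∑ y ∈ fib A J x, gs A i y) * (∑ y ∈ fib A J x, gs A i y)
        = ∑ y ∈ fib A J x, ∑ y' ∈ fib A J x, (1 + gs A i y * gs A i y') := by
      rw [Finset.sum_mul_sum]
      simp only [Finset.sum_add_distrib, Finset.sum_const, nsmul_eq_mul, mul_one]
      rw [hN]
    rw [h6, Finset.mul_sum]
    refine Finset.sum_le_sum fun y hy => ?_
    rw [Finset.mul_sum]
    exact Finset.sum_le_sum fun y' hy' => line_pair hk i (hmem y hy) (hmem y' hy')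
  refine h1.trans ?_
  rw [h3]
  have h7 : Gs A J x i ^ 2 = ((∑ y ∈ fib A J x, gs A i y) * (∑ y ∈ fib A J x, gs A i y)) / (N * N) := by
    unfold Gs
    rw [← hN, div_pow, sq, sq]
  rw [h7, ← mul_div_assoc]
  have h8 : (k * (∑ y ∈ fib A J x, ∑ y' ∈ fib A J x,
      ∑ a, pr A (univ.erase i) y i a * pr A (univ.erase i) y' i a)) / (N * N)
      ≤ (N * N + (∑ y ∈ fib A J x, gs A i y) * (∑ y ∈ fib A J x, gs A i y)) / (N * N) :=
    div_le_div_of_nonneg_right h5 (by positivity)
  rw [add_div, div_self (by positivity)] at h8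
  linarith

end Pool.Agent.Grid.Ent
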