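import Pool.Agent.Lib.MP_d0893a_co.Ent.Sup
import Pool.Agent.Lib.MP_d0893a_co.Ent.Weak
import Pool.Agent.Lib.MP_d0893a_co.Blocks

/-!
# Boundary and sensitivity (problem MP_d0893a_co)

* `sum_gs_le`: `Σ_{y∈A} gs A i y = k * #{lines in direction i with 0 < a < k points of A}` (a line
  with `a` points contributes `a * (k/a)`), and each such line contains a boundary edge in
  direction `i`. (See `Small.lean`, `LW.lean`, `Blocks.lean` for the existing lemmas on `cut`.)
* `beta_le`: by `D_insert_log` with `J = univ.erase i`, `D univ - D (univ.erase i)` is the mean of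
  `log (k / a_x)` (`pr A (univ.erase i) x i (x i) = 1 / a_x`), and `log z ≤ z / e`.
-/

open Finset

namespace Pool.Agent.Grid.Ent

variable {k n : ℕ}

private lemma bd_log_le {z : ℝ} (hz : 0 < z) : Real.log z ≤ z / Real.exp 1 := by
  have h := Real.add_one_le_exp (Real.log z - 1)
  rw [Real.exp_sub, Real.exp_log hz] at h
  linarith

private lemma bd_upd {i : Fin n} {x0 : Fin k} {y z : Fin n → Fin k} :
    Function.update z i x0 = Function.update y i x0 ↔ ∀ j ∈ univ.erase i, z j = y j := by
  constructor
  · intro h j hj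
    have h1 := congrFun h j
    rwa [Function.update_of_ne (ne_of_mem_erase hj), Function.update_of_ne (ne_of_mem_erase hj)]
      at h1
  · intro h
    funext j
    by_cases hj : j = i
    · subst hj
      rw [Function.update_self, Function.update_self]
    · rw [Function.update_of_ne hj, Function.update_of_ne hj]
      exact h j (mem_erase.mpr ⟨hj, mem_univ j⟩)

private lemma bd_line (hk : 0 < k) (A : Finset (Fin n → Fin k)) (i : Fin n) :
    ∑ y ∈ A, gs A i y ≤ k * (cut A i).card := by
  classical
  set x0 : Fin k := ⟨0, hk⟩ with hx0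
  set A' := A.filter fun y => (fib A (univ.erase i) y).card < k with hA'
  have h1 : ∑ y ∈ A, gs A i y = ∑ y ∈ A', (k : ℝ) / (fib A (univ.erase i) y).card := by
    rw [hA', sum_filter]
    rfl
  set g : (Fin n → Fin k) → (Fin n → Fin k) := fun y => Function.update y i x0 with hg
  have hfibc : ∀ y z, g z = g y → fib A (univ.erase i) z = fib A (univ.erase i) y := by
    intro y z hz
    exact fib_congr A (bd_upd.mp hz)
  have hfib : ∀ y ∈ A', A'.filter (fun z => g z = g y) = fib A (univ.erase i) y := by
    intro y hy
    ext z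
    unfold fib
    rw [mem_filter, mem_filter, mem_filter]
    constructor
    · rintro ⟨⟨h2, -⟩, h3⟩
      exact ⟨h2, bd_upd.mp h3⟩
    · rintro ⟨h2, h3⟩
      have h4 : g z = g y := bd_upd.mpr h3
      refine ⟨⟨h2, ?_⟩, h4⟩
      rw [hfibc y z h4]
      exact (mem_filter.mp hy).2
  rw [h1, ← sum_fiberwise_of_maps_to (t := A'.image g) (g := g)
    (fun y hy => mem_image_of_mem g hy)]
  have h2 : ∀ c ∈ A'.image g, ∑ y ∈ A'.filter (fun y => g y = c),
      (k : ℝ) / (fib A (univ.erase i) y).card = k := by
    intro c hc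
    obtain ⟨y, hy, rfl⟩ := mem_image.1 hc
    rw [hfib y hy]
    have h3 : ∀ z ∈ fib A (univ.erase i) y, (k : ℝ) / (fib A (univ.erase i) z).card =
        k / (fib A (univ.erase i) y).card := by
      intro z hz
      rw [fib_congr A (mem_filter.mp hz).2]
    rw [sum_congr rfl h3, sum_const, nsmul_eq_mul]
    have h4 := fib_card_pos (univ.erase i) (mem_filter.mp hy).1
    field_simp
  rw [sum_congr rfl h2, sum_const, nsmul_eq_mul, mul_comm]
  apply mul_le_mul_of_nonneg_left _ (Nat.cast_nonneg _)
  have h5 : A'.image g ⊆ (cut A i).image g := by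
    intro c hc
    obtain ⟨y, hy, rfl⟩ := mem_image.1 hc
    obtain ⟨hyA, hyk⟩ := mem_filter.mp hy
    have h6 : ∃ t : Fin k, Function.update y i t ∉ A := by
      by_contra hcon
      push Not at hcon
      have h7 : (univ : Finset (Fin k)).card ≤ (fib A (univ.erase i) y).card := by
        refine card_le_card_of_injOn (fun t => Function.update y i t) ?_ ?_
        · intro t _
          refine mem_coe.2 (mem_filter.2 ⟨hcon t, ?_⟩)
          intro j hj
          exact Function.update_of_ne (ne_of_mem_erase hj) _ _
        · intro t _ t' _ htt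
          exact Function.update_injective y i htt
      rw [card_univ, Fintype.card_fin] at h7
      omega
    obtain ⟨t, ht⟩ := h6
    have h8 : key (fun _ => 0) x0 i (Function.update y i t) = key (fun _ => 0) x0 i y :=
      key_update rfl
    obtain ⟨c, hc, hc'⟩ := exists_cut (φ := fun _ => 0) monotone_const hyA ht h8
    refine mem_image.2 ⟨c, hc, ?_⟩
    exact congrArg Prod.snd hc'
  exact_mod_cast (card_le_card h5).trans card_image_le

theorem mean_Gs (A : Finset (Fin n → Fin k)) (J : Finset (Fin n)) (i : Fin n) :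
    mean A (fun x => Gs A J x i) = mean A (gs A i) := mean_fib A J (gs A i)

theorem sum_gs_le (hk : 0 < k) (A : Finset (Fin n → Fin k)) :
    ∑ i, ∑ y ∈ A, gs A i y ≤ k * (edgeBoundary A).card := by
  calc ∑ i, ∑ y ∈ A, gs A i y ≤ ∑ i, (k : ℝ) * (cut A i).card :=
        sum_le_sum fun i _ => bd_line hk A i
    _ = k * ((∑ i, (cut A i).card : ℕ) : ℝ) := by rw [← mul_sum]; push_cast; rfl
    _ ≤ k * (edgeBoundary A).card := by
        apply mul_le_mul_of_nonneg_left _ (Nat.cast_nonneg _)
        exact_mod_cast sum_cut_le A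

theorem beta_le (hk : 0 < k) {A : Finset (Fin n → Fin k)} (hA : A.Nonempty) (i : Fin n) :
    D A univ - D A (univ.erase i) ≤ mean A (gs A i) / Real.exp 1 := by
  classical
  have h1 := D_insert_log hk hA (J := univ.erase i) (i := i) (notMem_erase i univ)
  rw [insert_erase (mem_univ i)] at h1
  rw [h1]
  have h2 : mean A (gs A i) / Real.exp 1 = mean A (fun x => gs A i x / Real.exp 1) := by
    unfold mean
    rw [← sum_div, div_right_comm]
  rw [h2]
  apply mean_mono
  intro x hx
  have h3 : ((fib A (univ.erase i) x).filter fun y => y i = x i) = {x} := by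
    ext y
    rw [mem_filter, mem_singleton]
    unfold fib
    rw [mem_filter]
    constructor
    · rintro ⟨⟨-, h4⟩, h5⟩
      funext j
      by_cases hj : j = i
      · rw [hj, h5]
      · exact h4 j (mem_erase.mpr ⟨hj, mem_univ j⟩)
    · rintro rfl
      exact ⟨⟨hx, fun _ _ => rfl⟩, rfl⟩
  have h4 : pr A (univ.erase i) x i (x i) = 1 / (fib A (univ.erase i) x).card := by
    unfold pr
    rw [h3, card_singleton, Nat.cast_one]
  have h5 := fib_card_pos (univ.erase i) hx
  have hk' : (0 : ℝ) < k := Nat.cast_pos.2 hk
  rw [h4, mul_one_div]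
  unfold gs
  split_ifs with h6
  · exact bd_log_le (by positivity)
  · rw [zero_div]
    apply Real.log_nonpos (by positivity)
    rw [div_le_one h5]
    exact_mod_cast not_lt.mp h6

end Pool.Agent.Grid.Ent
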