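import Pool.Agent.Lib.MP_d0893a_co.Ent.Site

/-!
# Product cells (problem MP_d0893a_co)

Proof. For `v : Fin n → Fin k` let `C v = piFinset (fun i => if i ∈ T then cls (l i) (v i) else univ)`,
so `v ∈ C v`, `w ∈ C v ↔ v ∈ C w`, and then `C v = C w`; `meas (C v) = Π_{i∈T} mu (l i) (v i)`. The
summand `G w` on the left side depends only on the cell of `w`. Hence
`Σ_{w∈A} G w = Σ_{w∈A} Σ_{v ∈ C w} G v / |C v| = Σ_v G v |A ∩ C v| / |C v|` and
`|A ∩ C v| / |C v| ≤ α^(1-γ)` if `α^L' ≤ meas (C v)`, `≤ 1` always. So the sum is at most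
`(α^(1-γ) + α θ) Σ_v Π_{i∈T} psi (p i) (l i) (v i) = (α^(1-γ) + α θ) k^n = |A| (α^(-γ) + θ)`
(`Σ_a psi = k`, `sum_psi`; `Finset.prod_univ_sum`).
-/

open Finset

namespace Pool.Agent.Grid.Ent

variable {k n : ℕ}

/-- the cell of `v` -/
private def cellC (T : Finset (Fin n)) (l : Fin n → Fin k → ℤ) (v : Fin n → Fin k) :
    Finset (Fin n → Fin k) :=
  Fintype.piFinset fun i => if i ∈ T then cls (l i) (v i) else univ

private lemma mem_cellC {T : Finset (Fin n)} {l : Fin n → Fin k → ℤ} {v w : Fin n → Fin k} :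
    w ∈ cellC T l v ↔ ∀ i ∈ T, l i (w i) = l i (v i) := by
  unfold cellC
  rw [Fintype.mem_piFinset]
  constructor
  · intro h i hi
    have h1 := h i
    rw [if_pos hi] at h1
    exact (mem_filter.mp h1).2
  · intro h i
    by_cases hi : i ∈ T
    · rw [if_pos hi]
      exact mem_filter.mpr ⟨mem_univ _, h i hi⟩
    · rw [if_neg hi]
      exact mem_univ _

private lemma cellC_congr {T : Finset (Fin n)} {l : Fin n → Fin k → ℤ} {v w : Fin n → Fin k}
    (h : ∀ i ∈ T, l i (w i) = l i (v i)) : cellC T l w = cellC T l v := by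
  ext z
  rw [mem_cellC, mem_cellC]
  constructor
  · intro h1 i hi
    rw [h1 i hi, h i hi]
  · intro h1 i hi
    rw [h1 i hi, h i hi]

private lemma cls_congr {l : Fin k → ℤ} {a b : Fin k} (h : l a = l b) : cls l a = cls l b := by
  unfold cls
  rw [h]

private lemma prod_compl_pow (T : Finset (Fin n)) (F : Fin n → ℝ) :
    ∏ i, (if i ∈ T then F i else (k : ℝ)) = (∏ i ∈ T, F i / k) * ∏ _i : Fin n, (k : ℝ) ∨ k = 0 := by
  classical
  rcases Nat.eq_zero_or_pos k with hk | hk
  · exact Or.inr hk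
  · left
    have hk' : (k : ℝ) ≠ 0 := Nat.cast_ne_zero.mpr hk.ne'
    rw [← prod_mul_prod_compl T (fun i => if i ∈ T then F i else (k : ℝ)),
      ← prod_mul_prod_compl T (fun _ => (k : ℝ)), ← mul_assoc, ← prod_mul_distrib]
    congr 1
    · refine prod_congr rfl fun i hi => ?_
      rw [if_pos hi]
      field_simp
    · refine prod_congr rfl fun i hi => ?_
      rw [if_neg (mem_compl.mp hi)]

private lemma meas_cellC (hk : 0 < k) (T : Finset (Fin n)) (l : Fin n → Fin k → ℤ)
    (v : Fin n → Fin k) : meas (cellC T l v) = ∏ i ∈ T, mu (l i) (v i) := by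
  classical
  have hk' : (k : ℝ) ≠ 0 := Nat.cast_ne_zero.mpr hk.ne'
  unfold meas cellC
  rw [Fintype.card_piFinset]
  push_cast
  have h1 : ∀ i, (((if i ∈ T then cls (l i) (v i) else univ).card : ℕ) : ℝ) =
      if i ∈ T then ((cls (l i) (v i)).card : ℝ) else (k : ℝ) := by
    intro i
    split_ifs
    · rfl
    · rw [card_univ, Fintype.card_fin]
  simp only [h1]
  rcases prod_compl_pow (k := k) T (fun i => ((cls (l i) (v i)).card : ℝ)) with h2 | h2
  · rw [h2, prod_const, card_univ, Fintype.card_fin, mul_div_assoc, div_self (pow_ne_zero _ hk'),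
      mul_one]
    rfl
  · omega

private lemma sum_prod_psi (T : Finset (Fin n)) (p : Fin n → Fin k → ℝ)
    (hp : ∀ i ∈ T, ∑ a, p i a = 1) (l : Fin n → Fin k → ℤ) :
    ∑ v : Fin n → Fin k, ∏ i ∈ T, psi (p i) (l i) (v i) = (k : ℝ) ^ n := by
  classical
  have h1 : ∀ v : Fin n → Fin k, ∏ i ∈ T, psi (p i) (l i) (v i) =
      ∏ i, (if i ∈ T then psi (p i) (l i) (v i) else 1) := by
    intro v
    rw [prod_ite_mem, univ_inter]
  simp only [h1]
  have h2 := prod_univ_sum (fun _ : Fin n => (univ : Finset (Fin k)))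
    (fun i a => if i ∈ T then psi (p i) (l i) a else (1 : ℝ))
  rw [Fintype.piFinset_univ] at h2
  rw [← h2]
  have h3 : ∀ i, ∑ a, (if i ∈ T then psi (p i) (l i) a else (1 : ℝ)) = k := by
    intro i
    split_ifs with hi
    · rw [sum_psi, hp i hi, mul_one]
    · rw [sum_const, card_univ, Fintype.card_fin, nsmul_eq_mul, mul_one]
  rw [prod_congr rfl fun i _ => h3 i, prod_const, card_univ, Fintype.card_fin]

theorem cell_bound (hk : 0 < k) {A : Finset (Fin n → Fin k)} (hA : A.Nonempty) {L' γ θ : ℝ}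
    (hθ : 0 ≤ θ)
    (hNI : ∀ S : Fin n → Finset (Fin k), (Fintype.piFinset S).Nonempty →
      meas A ^ L' ≤ meas (Fintype.piFinset S) →
      ((A ∩ Fintype.piFinset S).card : ℝ) ≤ meas A ^ (1 - γ) * (Fintype.piFinset S).card)
    (T : Finset (Fin n)) (p : Fin n → Fin k → ℝ)
    (hp : ∀ i ∈ T, (∀ a, 0 ≤ p i a) ∧ ∑ a, p i a = 1) (l : Fin n → Fin k → ℤ) :
    ∑ w ∈ A, ((∏ i ∈ T, psi (p i) (l i) (w i)) *
      (if meas A ^ L' ≤ ∏ i ∈ T, mu (l i) (w i) then 1 else meas A * θ)) ≤
      A.card * (meas A ^ (-γ) + θ) := by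
  classical
  have hk' : (0 : ℝ) < k := Nat.cast_pos.2 hk
  have hkn : (0 : ℝ) < (k : ℝ) ^ n := by positivity
  have hAc : (0 : ℝ) < A.card := Nat.cast_pos.2 hA.card_pos
  have hα : 0 < meas A := by unfold meas; positivity
  set G : (Fin n → Fin k) → ℝ := fun w => (∏ i ∈ T, psi (p i) (l i) (w i)) *
    (if meas A ^ L' ≤ ∏ i ∈ T, mu (l i) (w i) then 1 else meas A * θ) with hG
  have hGc : ∀ v w : Fin n → Fin k, (∀ i ∈ T, l i (w i) = l i (v i)) → G w = G v := by
    intro v w h
    have h1 : ∏ i ∈ T, psi (p i) (l i) (w i) = ∏ i ∈ T, psi (p i) (l i) (v i) := by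
      refine prod_congr rfl fun i hi => ?_
      unfold psi mu
      rw [cls_congr (h i hi)]
    have h2 : ∏ i ∈ T, mu (l i) (w i) = ∏ i ∈ T, mu (l i) (v i) := by
      refine prod_congr rfl fun i hi => ?_
      unfold mu
      rw [cls_congr (h i hi)]
    simp only [hG, h1, h2]
  have hself : ∀ v, v ∈ cellC T l v := fun v => mem_cellC.mpr fun _ _ => rfl
  have hCpos : ∀ v, (0 : ℝ) < (cellC T l v).card := fun v =>
    Nat.cast_pos.2 (card_pos.mpr ⟨v, hself v⟩)
  have hP : ∀ v : Fin n → Fin k, 0 ≤ ∏ i ∈ T, psi (p i) (l i) (v i) := fun v =>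
    prod_nonneg fun i hi => psi_nonneg (hp i hi).1 _ _
  -- averaging over the cells
  have hav : ∑ w ∈ A, G w = ∑ v, G v * (((A ∩ cellC T l v).card : ℝ) / (cellC T l v).card) := by
    have h1 : ∀ w ∈ A, G w = ∑ v, (if v ∈ cellC T l w then G v / (cellC T l v).card else 0) := by
      intro w _
      rw [← sum_filter]
      have h2 : univ.filter (fun v => v ∈ cellC T l w) = cellC T l w := by
        ext v
        rw [mem_filter]
        exact ⟨fun h => h.2, fun h => ⟨mem_univ _, h⟩⟩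
      rw [h2]
      have h3 : ∀ v ∈ cellC T l w, G v / (cellC T l v).card = G w / (cellC T l w).card := by
        intro v hv
        rw [hGc w v (mem_cellC.mp hv), cellC_congr (mem_cellC.mp hv)]
      rw [sum_congr rfl h3, sum_const, nsmul_eq_mul]
      have := hCpos w
      field_simp
    rw [sum_congr rfl h1, sum_comm]
    refine sum_congr rfl fun v _ => ?_
    rw [← sum_filter]
    have h2 : A.filter (fun w => v ∈ cellC T l w) = A ∩ cellC T l v := by
      ext w
      rw [mem_filter, mem_inter, mem_cellC, mem_cellC]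
      constructor
      · rintro ⟨h3, h4⟩
        exact ⟨h3, fun i hi => (h4 i hi).symm⟩
      · rintro ⟨h3, h4⟩
        exact ⟨h3, fun i hi => (h4 i hi).symm⟩
    rw [h2, sum_const, nsmul_eq_mul]
    ring
  have hterm : ∀ v, G v * (((A ∩ cellC T l v).card : ℝ) / (cellC T l v).card) ≤
      (∏ i ∈ T, psi (p i) (l i) (v i)) * (meas A ^ (1 - γ) + meas A * θ) := by
    intro v
    have hC := hCpos v
    have hα1 : 0 ≤ meas A ^ (1 - γ) := by positivity
    have hα2 : 0 ≤ meas A * θ := by positivity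
    simp only [hG]
    rw [mul_assoc]
    apply mul_le_mul_of_nonneg_left _ (hP v)
    split_ifs with h
    · rw [one_mul]
      rw [← meas_cellC hk] at h
      have h1 := hNI (fun i => if i ∈ T then cls (l i) (v i) else univ) ⟨v, hself v⟩ h
      have h2 : ((A ∩ cellC T l v).card : ℝ) / (cellC T l v).card ≤ meas A ^ (1 - γ) := by
        rw [div_le_iff₀ hC]
        exact h1
      linarith
    · have h2 : ((A ∩ cellC T l v).card : ℝ) / (cellC T l v).card ≤ 1 := by
        rw [div_le_one hC]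
        exact_mod_cast card_le_card inter_subset_right
      have h3 := mul_le_mul_of_nonneg_left h2 hα2
      linarith
  have hmain : ∑ w ∈ A, G w ≤ (k : ℝ) ^ n * (meas A ^ (1 - γ) + meas A * θ) := by
    rw [hav]
    refine (sum_le_sum fun v _ => hterm v).trans (le_of_eq ?_)
    rw [← sum_mul, sum_prod_psi T p (fun i hi => (hp i hi).2) l]
  refine hmain.trans (le_of_eq ?_)
  have h4 : (k : ℝ) ^ n * meas A = A.card := by
    unfold meas
    field_simp
  rw [sub_eq_add_neg, Real.rpow_add hα, Real.rpow_one]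
  calc (k : ℝ) ^ n * (meas A * meas A ^ (-γ) + meas A * θ) =
      ((k : ℝ) ^ n * meas A) * (meas A ^ (-γ) + θ) := by ring
    _ = _ := by rw [h4]

end Pool.Agent.Grid.Ent
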