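import Pool.Agent.Lib.MP_d0893a_co.Defs

/-!
# Entropy of near-isoperimetric sets (problem MP_d0893a_co): definitions

`X` is uniform on `A ⊆ [k]^n`. For `J ⊆ [n]`, `D A J` is the relative entropy (nats) of `X_J`
with respect to the uniform law.
-/

open Finset

namespace Pool.Agent.Grid.Ent

variable {k n : ℕ}

/-- the points of `A` which agree with `x` on `J` -/
def fib (A : Finset (Fin n → Fin k)) (J : Finset (Fin n)) (x : Fin n → Fin k) :
    Finset (Fin n → Fin k) :=
  A.filter fun y => ∀ i ∈ J, y i = x i

/-- mean over `A` -/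
noncomputable def mean (A : Finset (Fin n → Fin k)) (f : (Fin n → Fin k) → ℝ) : ℝ :=
  (∑ x ∈ A, f x) / A.card

/-- relative entropy of `X_J` -/
noncomputable def D (A : Finset (Fin n → Fin k)) (J : Finset (Fin n)) : ℝ :=
  mean A (fun x => Real.log (fib A J x).card) - Real.log A.card + J.card * Real.log k

/-- the conditional law of `X_i` given `X_J = x_J` -/
noncomputable def pr (A : Finset (Fin n → Fin k)) (J : Finset (Fin n)) (x : Fin n → Fin k)
    (i : Fin n) (a : Fin k) : ℝ :=
  (((fib A J x).filter fun y => y i = a).card : ℝ) / (fib A J x).card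

/-- relative entropy of a function `p` on `Fin k` -/
noncomputable def rel (p : Fin k → ℝ) : ℝ := ∑ a, p a * Real.log (k * p a)

/-- `k / a` if the line through `y` in direction `i` has `a < k` points in `A`, else `0` -/
noncomputable def gs (A : Finset (Fin n → Fin k)) (i : Fin n) (y : Fin n → Fin k) : ℝ :=
  if (fib A (univ.erase i) y).card < k then (k : ℝ) / (fib A (univ.erase i) y).card else 0

/-- mean of `gs` given `X_J = x_J` -/
noncomputable def Gs (A : Finset (Fin n → Fin k)) (J : Finset (Fin n)) (x : Fin n → Fin k)
    (i : Fin n) : ℝ :=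
  (∑ y ∈ fib A J x, gs A i y) / (fib A J x).card

/-- the class of `a` in the partition of `Fin k` into the level sets of `l` -/
def cls (l : Fin k → ℤ) (a : Fin k) : Finset (Fin k) := univ.filter fun b => l b = l a

/-- measure of the class of `a` -/
noncomputable def mu (l : Fin k → ℤ) (a : Fin k) : ℝ := ((cls l a).card : ℝ) / k

/-- density of the class of `a` under `p` -/
noncomputable def psi (p : Fin k → ℝ) (l : Fin k → ℤ) (a : Fin k) : ℝ :=
  (∑ b ∈ cls l a, p b) / mu l a

/-- weight of `J` when `J` is a random subset of density `t` -/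
noncomputable def wt (t : ℝ) (J : Finset (Fin n)) : ℝ := t ^ J.card * (1 - t) ^ (n - J.card)

/-- mean of a set function over a random subset of density `t` -/
noncomputable def ext (F : Finset (Fin n) → ℝ) (t : ℝ) : ℝ := ∑ J, wt t J * F J

end Pool.Agent.Grid.Ent
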