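import Pool.Agent.Lib.MP_d0893a_co.Ent.Defs

/-!
# The multilinear extension on the diagonal (problem MP_d0893a_co)

`ext F t` is the mean of `F J` over a random subset `J` of density `t`.
* `sum_wt`: `Finset.sum_pow_mul_eq_add_pow`.
* `hasDerivAt_ext`: `(1-t) d/dt (t^a (1-t)^b) = a t^(a-1) (1-t)^(b+1) - b t^a (1-t)^b` and
  `Σ_J Σ_{i ∉ J} f (insert i J) = Σ_J' |J'| f J'` (each `J'` arises from `|J'|` pairs).
* `sum_wt_compl`: `Σ_{J ∌ i} wt t J = 1 - t`.
-/

open Finset

namespace Pool.Agent.Grid.Ent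

variable {n : ℕ}

theorem sum_wt (t : ℝ) : ∑ J : Finset (Fin n), wt t J = 1 := by
  have h := Fintype.sum_pow_mul_eq_add_pow (Fin n) t (1 - t)
  rw [Fintype.card_fin, add_sub_cancel, one_pow] at h
  exact h

theorem wt_nonneg {t : ℝ} (h0 : 0 ≤ t) (h1 : t ≤ 1) (J : Finset (Fin n)) : 0 ≤ wt t J :=
  mul_nonneg (pow_nonneg h0 _) (pow_nonneg (sub_nonneg.2 h1) _)

theorem ext_compl (F : Finset (Fin n) → ℝ) (t : ℝ) :
    ext F (1 - t) = ∑ J : Finset (Fin n), wt t J * F Jᶜ := by
  unfold ext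
  refine Fintype.sum_equiv (Equiv.ofBijective _ compl_bijective) _ _ fun J => ?_
  change wt (1 - t) J * F J = wt t Jᶜ * F Jᶜᶜ
  rw [compl_compl]
  congr 1
  unfold wt
  have h1 : J.card ≤ n := by simpa using Finset.card_le_univ J
  rw [Finset.card_compl, Fintype.card_fin, Nat.sub_sub_self h1, sub_sub_cancel, mul_comm]

private theorem ext_sum_insert (G : Finset (Fin n) → ℝ) (i : Fin n) :
    ∑ J ∈ univ.filter (fun J : Finset (Fin n) => i ∉ J), G (insert i J) =
      ∑ J ∈ univ.filter (fun J : Finset (Fin n) => i ∈ J), G J := by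
  refine Finset.sum_bij' (fun J _ => insert i J) (fun J _ => J.erase i) ?_ ?_ ?_ ?_ ?_
  · intro J _
    simp
  · intro J _
    simp
  · intro J hJ
    exact Finset.erase_insert (Finset.mem_filter.1 hJ).2
  · intro J hJ
    exact Finset.insert_erase (Finset.mem_filter.1 hJ).2
  · intro J _
    rfl

private theorem ext_swap (g : Finset (Fin n) → Fin n → ℝ) :
    ∑ J : Finset (Fin n), ∑ i ∈ Jᶜ, g J i =
      ∑ i, ∑ J ∈ univ.filter (fun J : Finset (Fin n) => i ∉ J), g J i := by
  refine Finset.sum_comm' fun J i => ?_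
  simp

private theorem ext_swap' (g : Finset (Fin n) → Fin n → ℝ) :
    ∑ i, ∑ J ∈ univ.filter (fun J : Finset (Fin n) => i ∈ J), g J i =
      ∑ J : Finset (Fin n), ∑ i ∈ J, g J i := by
  refine Finset.sum_comm' fun i J => ?_
  simp

private theorem ext_wt_erase (t : ℝ) {J : Finset (Fin n)} {i : Fin n} (hi : i ∈ J) :
    wt t (J.erase i) = t ^ (J.card - 1) * (1 - t) ^ (n - J.card + 1) := by
  unfold wt
  have h1 : J.card ≤ n := by simpa using Finset.card_le_univ J
  have h2 : 0 < J.card := Finset.card_pos.2 ⟨i, hi⟩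
  rw [Finset.card_erase_of_mem hi]
  congr 2
  omega

theorem hasDerivAt_ext (F : Finset (Fin n) → ℝ) {t : ℝ} (ht : t ≠ 1) :
    HasDerivAt (ext F)
      ((∑ J : Finset (Fin n), wt t J * ∑ i ∈ Jᶜ, (F (insert i J) - F J)) / (1 - t)) t := by
  have ht' : 1 - t ≠ 0 := sub_ne_zero.2 ht.symm
  have h1 : ∀ J : Finset (Fin n), HasDerivAt (fun t => wt t J * F J)
      ((J.card * t ^ (J.card - 1) * (1 - t) ^ (n - J.card) -
        t ^ J.card * ((n - J.card : ℕ) * (1 - t) ^ (n - J.card - 1))) * F J) t := by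
    intro J
    have h3 := (hasDerivAt_id t).pow J.card
    have h4 := ((hasDerivAt_id t).const_sub 1).pow (n - J.card)
    refine ((h3.mul h4).mul_const (F J)).congr_deriv ?_
    simp only [id, Pi.pow_apply, mul_one]
    ring
  have h2 := HasDerivAt.fun_sum (u := univ) fun J _ => h1 J
  refine h2.congr_deriv ?_
  rw [eq_div_iff ht', Finset.sum_mul]
  have h5 : ∀ J : Finset (Fin n), wt t J * ∑ i ∈ Jᶜ, (F (insert i J) - F J) =
      ∑ i ∈ Jᶜ, wt t J * F (insert i J) - (n - J.card : ℕ) * (wt t J * F J) := by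
    intro J
    rw [Finset.sum_sub_distrib, Finset.sum_const, Finset.card_compl, Fintype.card_fin,
      nsmul_eq_mul, ← Finset.mul_sum]
    ring
  simp only [h5]
  rw [Finset.sum_sub_distrib, ext_swap (fun J i => wt t J * F (insert i J))]
  have h6 : ∀ i : Fin n, ∑ J ∈ univ.filter (fun J : Finset (Fin n) => i ∉ J),
      wt t J * F (insert i J) =
      ∑ J ∈ univ.filter (fun J : Finset (Fin n) => i ∈ J), wt t (J.erase i) * F J := by
    intro i
    rw [← ext_sum_insert (fun J => wt t (J.erase i) * F J) i]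
    refine Finset.sum_congr rfl fun J hJ => ?_
    rw [Finset.erase_insert (Finset.mem_filter.1 hJ).2]
  simp only [h6]
  rw [ext_swap' (fun J i => wt t (J.erase i) * F J), ← Finset.sum_sub_distrib]
  refine Finset.sum_congr rfl fun J _ => ?_
  have h7 : ∑ i ∈ J, wt t (J.erase i) * F J =
      J.card * (t ^ (J.card - 1) * (1 - t) ^ (n - J.card + 1)) * F J := by
    rw [← Finset.sum_mul, Finset.sum_congr rfl fun i hi => ext_wt_erase t hi, Finset.sum_const,
      nsmul_eq_mul]
  rw [h7]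
  have h8 : ((n - J.card : ℕ) : ℝ) * (1 - t) ^ (n - J.card - 1) * (1 - t) =
      (n - J.card : ℕ) * (1 - t) ^ (n - J.card) := by
    rcases Nat.eq_zero_or_pos (n - J.card) with h | h
    · rw [h]
      simp
    · rw [mul_assoc, ← pow_succ, Nat.sub_add_cancel h]
  unfold wt
  rw [pow_succ]
  linear_combination (-(t ^ J.card * F J)) * h8

theorem sum_wt_compl (b : Fin n → ℝ) (t : ℝ) :
    ∑ J : Finset (Fin n), wt t J * ∑ i ∈ Jᶜ, b i = (1 - t) * ∑ i, b i := by
  have h0 : ∀ J : Finset (Fin n), wt t J * ∑ i ∈ Jᶜ, b i = ∑ i ∈ Jᶜ, wt t J * b i :=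
    fun J => Finset.mul_sum _ _ _
  simp only [h0]
  rw [ext_swap (fun J i => wt t J * b i), Finset.mul_sum]
  refine Finset.sum_congr rfl fun i _ => ?_
  rw [← Finset.sum_mul]
  congr 1
  have h1 : ∑ J ∈ univ.filter (fun J : Finset (Fin n) => i ∈ J), wt t J +
      ∑ J ∈ univ.filter (fun J : Finset (Fin n) => i ∉ J), wt t J = 1 := by
    rw [← sum_wt (n := n) t]
    exact Finset.sum_filter_add_sum_filter_not _ _ _
  have h2 : (1 - t) * ∑ J ∈ univ.filter (fun J : Finset (Fin n) => i ∈ J), wt t J =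
      t * ∑ J ∈ univ.filter (fun J : Finset (Fin n) => i ∉ J), wt t J := by
    rw [Finset.mul_sum, Finset.mul_sum, ← ext_sum_insert (fun J => (1 - t) * wt t J) i]
    refine Finset.sum_congr rfl fun J hJ => ?_
    have h3 : i ∉ J := (Finset.mem_filter.1 hJ).2
    have h4 : (insert i J).card ≤ n := by simpa using Finset.card_le_univ (insert i J)
    rw [Finset.card_insert_of_notMem h3] at h4
    unfold wt
    rw [Finset.card_insert_of_notMem h3]
    have h5 : n - J.card = n - (J.card + 1) + 1 := by omega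
    rw [h5, pow_succ, pow_succ]
    ring
  linear_combination (1 - t) * h1 - h2

end Pool.Agent.Grid.Ent
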