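import Pool.Agent.Lib.MP_d0893a_co.Ent.Tower

/-!
# The set function `D A` (problem MP_d0893a_co)

* `D_insert_log`: `log |fib A (insert i J) x| - log |fib A J x| = log (pr A J x i (x i))`.
* `D_insert`: `mean_tower` with `h x a = log (k * pr A J x i a)`.
* `D_super`: by `D_insert_log` the difference is `mean log (pr A J x i (x i) / pr A J' x i (x i))`
  `≤ log (mean of the ratio)` (`mean_log_le`), and the mean of the ratio is at most `1`:
  `Σ_{x∈A} pr_J(x i)/pr_J'(x i) = Σ_{x∈A} Σ_{a : pr_J' a ≠ 0} pr_J a` (`mean_tower` for `J'`)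
  `≤ |A|`.
* `D_sum_le`, `D_univ_sub_le`: induction over the elements of `Jᶜ` with `D_super`.
* `D_compl`: definition of `D`, `|fib A univ x| = 1` for `x ∈ A`.
-/

open Finset

namespace Pool.Agent.Grid.Ent

variable {k n : ℕ}

theorem D_empty {A : Finset (Fin n → Fin k)} (hA : A.Nonempty) : D A ∅ = 0 := by
  sorry

theorem D_univ (hk : 0 < k) {A : Finset (Fin n → Fin k)} (hA : A.Nonempty) :
    D A univ = -Real.log (meas A) := by
  sorry

theorem D_insert_log (hk : 0 < k) {A : Finset (Fin n → Fin k)} (hA : A.Nonempty)
    {J : Finset (Fin n)} {i : Fin n} (hi : i ∉ J) :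
    D A (insert i J) - D A J = mean A (fun x => Real.log (k * pr A J x i (x i))) := by
  sorry

theorem D_insert (hk : 0 < k) {A : Finset (Fin n → Fin k)} (hA : A.Nonempty)
    {J : Finset (Fin n)} {i : Fin n} (hi : i ∉ J) :
    D A (insert i J) - D A J = mean A (fun x => rel (pr A J x i)) := by
  sorry

theorem D_super (hk : 0 < k) {A : Finset (Fin n → Fin k)} (hA : A.Nonempty)
    {J J' : Finset (Fin n)} (hJ : J ⊆ J') {i : Fin n} (hi : i ∉ J') :
    D A (insert i J) - D A J ≤ D A (insert i J') - D A J' := by
  have hk0 : (0 : ℝ) < k := by exact_mod_cast hk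
  have hcard : (0 : ℝ) < A.card := by exact_mod_cast hA.card_pos
  rw [D_insert_log hk hA (fun h => hi (hJ h)), D_insert_log hk hA hi]
  have hr : mean A (fun x => pr A J x i (x i) / pr A J' x i (x i)) ≤ 1 := by
    have htower := mean_tower A J' i (fun x a => pr A J x i a / pr A J' x i a) (by
      intro x y hxy
      have h1 := pr_congr A (J := J) (x := x) (y := y) (fun j hj => hxy j (hJ hj))
      have h2 := pr_congr A (J := J') (x := x) (y := y) hxy
      simp only [h1, h2])
    rw [htower]
    calc mean A (fun x => ∑ a, pr A J' x i a * (pr A J x i a / pr A J' x i a))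
        ≤ mean A (fun _ => 1) := by
          apply mean_mono
          intro x hx
          rw [← sum_pr J hx i]
          apply Finset.sum_le_sum
          intro a _
          rcases eq_or_ne (pr A J' x i a) 0 with h0 | h0
          · rw [h0]; simpa using pr_nonneg A J x i a
          · rw [mul_div_cancel₀ _ h0]
      _ = 1 := by
          unfold mean
          rw [Finset.sum_const, nsmul_eq_mul, mul_one]
          exact div_self hcard.ne'
  have hlog := mean_log_le hA (f := fun x => pr A J x i (x i) / pr A J' x i (x i))
    (fun x hx => div_pos (pr_pos J hx i) (pr_pos J' hx i)) hr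
  rw [Real.log_one] at hlog
  have hsub : mean A (fun x => Real.log (k * pr A J x i (x i))) -
      mean A (fun x => Real.log (k * pr A J' x i (x i))) =
      mean A (fun x => Real.log (pr A J x i (x i) / pr A J' x i (x i))) := by
    unfold mean
    rw [← sub_div, ← Finset.sum_sub_distrib]
    congr 1
    apply Finset.sum_congr rfl
    intro x hx
    have h1 := pr_pos J hx i
    have h2 := pr_pos J' hx i
    show _ = Real.log (pr A J x i (x i) / pr A J' x i (x i))
    rw [Real.log_div h1.ne' h2.ne', Real.log_mul hk0.ne' h1.ne', Real.log_mul hk0.ne' h2.ne']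
    ring
  linarith

theorem D_nonneg (hk : 0 < k) {A : Finset (Fin n → Fin k)} (hA : A.Nonempty)
    (J : Finset (Fin n)) : 0 ≤ D A J := by
  sorry

theorem D_sum_le (hk : 0 < k) {A : Finset (Fin n → Fin k)} (hA : A.Nonempty)
    (J : Finset (Fin n)) : ∑ i ∈ Jᶜ, (D A (insert i J) - D A J) ≤ D A univ - D A J := by
  have key : ∀ S : Finset (Fin n), S ⊆ Jᶜ →
      ∑ i ∈ S, (D A (insert i J) - D A J) ≤ D A (J ∪ S) - D A J := by
    intro S
    induction S using Finset.induction_on with
    | empty => intro _; simp
    | insert a S ha ih =>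
      intro hS
      have hSJ := (Finset.insert_subset_iff.mp hS).2
      have haJ := Finset.mem_compl.mp (Finset.insert_subset_iff.mp hS).1
      have h1 := D_super hk hA (J := J) (J' := J ∪ S) Finset.subset_union_left (i := a)
        (by simp [haJ, ha])
      rw [Finset.sum_insert ha, Finset.union_insert]
      linarith [ih hSJ]
  have := key Jᶜ (Finset.Subset.refl _)
  rwa [Finset.union_compl] at this

theorem D_univ_sub_le (hk : 0 < k) {A : Finset (Fin n → Fin k)} (hA : A.Nonempty)
    (J : Finset (Fin n)) :
    D A univ - D A J ≤ ∑ i ∈ Jᶜ, (D A univ - D A (univ.erase i)) := by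
  have key : ∀ S : Finset (Fin n), S ⊆ Jᶜ →
      D A (J ∪ S) - D A J ≤ ∑ i ∈ S, (D A univ - D A (univ.erase i)) := by
    intro S
    induction S using Finset.induction_on with
    | empty => intro _; simp
    | insert a S ha ih =>
      intro hS
      have hSJ := (Finset.insert_subset_iff.mp hS).2
      have haJ := Finset.mem_compl.mp (Finset.insert_subset_iff.mp hS).1
      have h1 := D_super hk hA (J := J ∪ S) (J' := univ.erase a) (by
        intro j hj
        rw [Finset.mem_erase]
        refine ⟨?_, Finset.mem_univ _⟩
        rintro rfl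
        rcases Finset.mem_union.mp hj with h | h
        · exact haJ h
        · exact ha h) (i := a) (Finset.notMem_erase a univ)
      rw [Finset.insert_erase (Finset.mem_univ a)] at h1
      rw [Finset.sum_insert ha, Finset.union_insert]
      linarith [ih hSJ]
  have := key Jᶜ (Finset.Subset.refl _)
  rwa [Finset.union_compl] at this

theorem D_compl (hk : 0 < k) {A : Finset (Fin n → Fin k)} (hA : A.Nonempty)
    (J : Finset (Fin n)) :
    D A univ - D A J - D A Jᶜ =
      mean A (fun x => Real.log (A.card / ((fib A J x).card * (fib A Jᶜ x).card))) := by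
  sorry

end Pool.Agent.Grid.Ent
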