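import Pool.Agent.Lib.MP_d0893a_co.Ent.Cell
import Pool.Agent.Lib.MP_d0893a_co.Ent.Sup

/-!
# The Gibbs step (problem MP_d0893a_co)

Proof. Let `E x` be the exponential of the function on the left side, i.e.
`E x = (Π_{i∈T x} psi (pr A J x i) (l x i) (x i)) * (1 or meas A * θ)` (positive for `x ∈ A`: `pr_pos`,
`psi_pos`), and `W x = E x * |fib A J x| |fib A Jᶜ x| / |A|`. By `D_compl` and `mean_log_le` it is
enough that `mean W ≤ meas A ^ (-γ) + θ`. Now `|fib A J x| |fib A Jᶜ x|` is the number of pairs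
`(y, w) ∈ A × A` with `y = x` on `J` and `w = x` on `Jᶜ`, and for such a pair `E x = E_y w` where
`E_y w = (Π_{i∈T y} psi (pr A J y i) (l y i) (w i)) * (...)` (`T`, `l`, `pr` depend only on the
coordinates in `J`, and `T y ⊆ Jᶜ`). Each pair belongs to at most one `x`. So
`Σ_{x∈A} E x |fib A J x| |fib A Jᶜ x| ≤ Σ_{y∈A} Σ_{w∈A} E_y w ≤ |A| * |A| (meas A^(-γ) + θ)` by
`cell_bound`.
-/

open Finset

namespace Pool.Agent.Grid.Ent

variable {k n : ℕ}

/-- the Gibbs weight of `w` in the cell system of `y` -/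
private noncomputable def gw (A : Finset (Fin n → Fin k)) (L' θ : ℝ) (J : Finset (Fin n))
    (T : (Fin n → Fin k) → Finset (Fin n)) (l : (Fin n → Fin k) → Fin n → Fin k → ℤ)
    (y w : Fin n → Fin k) : ℝ :=
  (∏ i ∈ T y, psi (pr A J y i) (l y i) (w i)) *
    (if meas A ^ L' ≤ ∏ i ∈ T y, mu (l y i) (w i) then 1 else meas A * θ)

private lemma meas_pos (hk : 0 < k) {A : Finset (Fin n → Fin k)} (hA : A.Nonempty) :
    0 < meas A := by
  unfold meas
  have h1 : (0 : ℝ) < A.card := by exact_mod_cast hA.card_pos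
  have h2 : (0 : ℝ) < k := by exact_mod_cast hk
  positivity

private lemma gw_nonneg (hk : 0 < k) {A : Finset (Fin n → Fin k)} (hA : A.Nonempty) {L' θ : ℝ}
    (hθ : 0 < θ) (J : Finset (Fin n)) (T : (Fin n → Fin k) → Finset (Fin n))
    (l : (Fin n → Fin k) → Fin n → Fin k → ℤ) (y w : Fin n → Fin k) :
    0 ≤ gw A L' θ J T l y w := by
  have h0 := meas_pos hk hA
  unfold gw
  refine mul_nonneg (Finset.prod_nonneg fun i _ => ?_) ?_
  · exact psi_nonneg (fun a => pr_nonneg A J y i a) _ _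
  · split_ifs
    · exact zero_le_one
    · positivity

private lemma gw_self_pos (hk : 0 < k) {A : Finset (Fin n → Fin k)} (hA : A.Nonempty)
    {L' θ : ℝ} (hθ : 0 < θ) (J : Finset (Fin n)) (T : (Fin n → Fin k) → Finset (Fin n))
    (l : (Fin n → Fin k) → Fin n → Fin k → ℤ) {x : Fin n → Fin k} (hx : x ∈ A) :
    0 < gw A L' θ J T l x x := by
  have h0 := meas_pos hk hA
  unfold gw
  refine mul_pos (Finset.prod_pos fun i _ => ?_) ?_
  · exact psi_pos (fun a => pr_nonneg A J x i a) _ (pr_pos J hx i)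
  · split_ifs
    · exact zero_lt_one
    · positivity

private lemma log_gw (hk : 0 < k) {A : Finset (Fin n → Fin k)} (hA : A.Nonempty)
    {L' θ : ℝ} (hθ : 0 < θ) (J : Finset (Fin n)) (T : (Fin n → Fin k) → Finset (Fin n))
    (l : (Fin n → Fin k) → Fin n → Fin k → ℤ) {x : Fin n → Fin k} (hx : x ∈ A) :
    Real.log (gw A L' θ J T l x x) =
      ∑ i ∈ T x, Real.log (psi (pr A J x i) (l x i) (x i)) +
      (if meas A ^ L' ≤ ∏ i ∈ T x, mu (l x i) (x i) then 0 else Real.log (meas A * θ)) := by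
  have h0 := meas_pos hk hA
  have hpos : ∀ i ∈ T x, psi (pr A J x i) (l x i) (x i) ≠ 0 := fun i _ =>
    (psi_pos (fun a => pr_nonneg A J x i a) _ (pr_pos J hx i)).ne'
  unfold gw
  rw [Real.log_mul (Finset.prod_ne_zero_iff.2 hpos) (by split_ifs <;> positivity),
    Real.log_prod hpos]
  congr 1
  split_ifs
  · exact Real.log_one
  · rfl

/-- the weight depends only on the coordinates -/
private lemma gw_congr (A : Finset (Fin n → Fin k)) (L' θ : ℝ) (J : Finset (Fin n))
    (T : (Fin n → Fin k) → Finset (Fin n)) (l : (Fin n → Fin k) → Fin n → Fin k → ℤ)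
    (hTJ : ∀ x, T x ⊆ Jᶜ) (hT : ∀ x y, (∀ j ∈ J, x j = y j) → T x = T y)
    (hl : ∀ x y, (∀ j ∈ J, x j = y j) → l x = l y) (x y w : Fin n → Fin k)
    (hy : ∀ j ∈ J, y j = x j) (hw : ∀ j ∈ Jᶜ, w j = x j) :
    gw A L' θ J T l x x = gw A L' θ J T l y w := by
  unfold gw
  rw [hT y x hy, hl y x hy, pr_congr A hy]
  have h1 : ∀ i ∈ T x, w i = x i := fun i hi => hw i (hTJ x hi)
  have h2 : ∏ i ∈ T x, psi (pr A J x i) (l x i) (w i) =
      ∏ i ∈ T x, psi (pr A J x i) (l x i) (x i) :=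
    Finset.prod_congr rfl fun i hi => by rw [h1 i hi]
  have h3 : ∏ i ∈ T x, mu (l x i) (w i) = ∏ i ∈ T x, mu (l x i) (x i) :=
    Finset.prod_congr rfl fun i hi => by rw [h1 i hi]
  rw [h2, h3]

private lemma total (hk : 0 < k) {A : Finset (Fin n → Fin k)} (hA : A.Nonempty) {L' θ : ℝ}
    (hθ : 0 < θ) (J : Finset (Fin n)) (T : (Fin n → Fin k) → Finset (Fin n))
    (l : (Fin n → Fin k) → Fin n → Fin k → ℤ) (hTJ : ∀ x, T x ⊆ Jᶜ)
    (hT : ∀ x y, (∀ j ∈ J, x j = y j) → T x = T y)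
    (hl : ∀ x y, (∀ j ∈ J, x j = y j) → l x = l y) :
    ∑ x ∈ A, gw A L' θ J T l x x * ((fib A J x).card * (fib A Jᶜ x).card) ≤
      ∑ y ∈ A, ∑ w ∈ A, gw A L' θ J T l y w := by
  classical
  have h1 : ∀ x ∈ A, gw A L' θ J T l x x * ((fib A J x).card * (fib A Jᶜ x).card) =
      ∑ y ∈ A, ∑ w ∈ A, if (∀ j ∈ J, y j = x j) ∧ (∀ j ∈ Jᶜ, w j = x j) then
        gw A L' θ J T l y w else 0 := by
    intro x _
    have h2 : ∀ y ∈ A, ∑ w ∈ A, (if (∀ j ∈ J, y j = x j) ∧ (∀ j ∈ Jᶜ, w j = x j) then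
        gw A L' θ J T l y w else 0) = if (∀ j ∈ J, y j = x j) then
          ((fib A Jᶜ x).card : ℝ) * gw A L' θ J T l x x else 0 := by
      intro y _
      by_cases hy : ∀ j ∈ J, y j = x j
      · rw [if_pos hy]
        have h3 : ∀ w ∈ A, (if (∀ j ∈ J, y j = x j) ∧ (∀ j ∈ Jᶜ, w j = x j) then
            gw A L' θ J T l y w else 0) = if (∀ j ∈ Jᶜ, w j = x j) then
              gw A L' θ J T l x x else 0 := by
          intro w _
          by_cases hw : ∀ j ∈ Jᶜ, w j = x j
          · rw [if_pos ⟨hy, hw⟩, if_pos hw]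
            exact (gw_congr A L' θ J T l hTJ hT hl x y w hy hw).symm
          · rw [if_neg hw, if_neg (fun h => hw h.2)]
        rw [Finset.sum_congr rfl h3, ← Finset.sum_filter, Finset.sum_const, nsmul_eq_mul]
        rfl
      · rw [if_neg hy]
        refine Finset.sum_eq_zero fun w _ => ?_
        rw [if_neg (fun h => hy h.1)]
    rw [Finset.sum_congr rfl h2, ← Finset.sum_filter, Finset.sum_const, nsmul_eq_mul]
    unfold fib
    ring
  rw [Finset.sum_congr rfl h1, Finset.sum_comm]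
  refine Finset.sum_le_sum fun y _ => ?_
  rw [Finset.sum_comm]
  refine Finset.sum_le_sum fun w _ => ?_
  rw [← Finset.sum_filter, Finset.sum_const, nsmul_eq_mul]
  have h4 : (A.filter fun x => (∀ j ∈ J, y j = x j) ∧ (∀ j ∈ Jᶜ, w j = x j)).card ≤ 1 := by
    rw [Finset.card_le_one]
    intro a ha b hb
    rw [Finset.mem_filter] at ha hb
    funext j
    by_cases hj : j ∈ J
    · rw [← ha.2.1 j hj, ← hb.2.1 j hj]
    · have hj' : j ∈ Jᶜ := Finset.mem_compl.2 hj
      rw [← ha.2.2 j hj', ← hb.2.2 j hj']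
  have h5 : ((A.filter fun x => (∀ j ∈ J, y j = x j) ∧ (∀ j ∈ Jᶜ, w j = x j)).card : ℝ) ≤ 1 := by
    exact_mod_cast h4
  exact mul_le_of_le_one_left (gw_nonneg hk hA hθ J T l y w) h5

theorem gibbs_step (hk : 0 < k) {A : Finset (Fin n → Fin k)} (hA : A.Nonempty) {L' γ θ : ℝ}
    (hθ : 0 < θ)
    (hNI : ∀ S : Fin n → Finset (Fin k), (Fintype.piFinset S).Nonempty →
      meas A ^ L' ≤ meas (Fintype.piFinset S) →
      ((A ∩ Fintype.piFinset S).card : ℝ) ≤ meas A ^ (1 - γ) * (Fintype.piFinset S).card)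
    (J : Finset (Fin n)) (T : (Fin n → Fin k) → Finset (Fin n))
    (l : (Fin n → Fin k) → Fin n → Fin k → ℤ) (hTJ : ∀ x, T x ⊆ Jᶜ)
    (hT : ∀ x y, (∀ j ∈ J, x j = y j) → T x = T y)
    (hl : ∀ x y, (∀ j ∈ J, x j = y j) → l x = l y) :
    mean A (fun x => ∑ i ∈ T x, Real.log (psi (pr A J x i) (l x i) (x i)) +
      (if meas A ^ L' ≤ ∏ i ∈ T x, mu (l x i) (x i) then 0 else Real.log (meas A * θ))) ≤
      D A univ - D A J - D A Jᶜ + Real.log (meas A ^ (-γ) + θ) := by
  have hA' : (0 : ℝ) < A.card := by exact_mod_cast hA.card_pos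
  -- the weights
  have hW : ∀ x ∈ A, 0 < gw A L' θ J T l x x *
      ((fib A J x).card * (fib A Jᶜ x).card / A.card) := by
    intro x hx
    have h1 := gw_self_pos (L' := L') hk hA hθ J T l hx
    have h2 := fib_card_pos J hx
    have h3 := fib_card_pos Jᶜ hx
    positivity
  have hM : mean A (fun x => gw A L' θ J T l x x *
      ((fib A J x).card * (fib A Jᶜ x).card / A.card)) ≤ meas A ^ (-γ) + θ := by
    unfold mean
    rw [div_le_iff₀ hA']
    have h1 : ∑ x ∈ A, gw A L' θ J T l x x * ((fib A J x).card * (fib A Jᶜ x).card / A.card) =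
        (∑ x ∈ A, gw A L' θ J T l x x * ((fib A J x).card * (fib A Jᶜ x).card)) / A.card := by
      rw [Finset.sum_div]
      exact Finset.sum_congr rfl fun x _ => by ring
    rw [h1, div_le_iff₀ hA']
    refine (total hk hA hθ J T l hTJ hT hl).trans ?_
    have h2 : ∀ y ∈ A, ∑ w ∈ A, gw A L' θ J T l y w ≤ A.card * (meas A ^ (-γ) + θ) := by
      intro y hy
      exact cell_bound hk hA hθ.le hNI (T y) (fun i => pr A J y i)
        (fun i _ => ⟨fun a => pr_nonneg A J y i a, sum_pr J hy i⟩) (l y)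
    refine (Finset.sum_le_sum h2).trans ?_
    rw [Finset.sum_const, nsmul_eq_mul]
    apply le_of_eq
    ring
  have hlog := mean_log_le hA hW hM
  have hD := D_compl hk hA J
  have hkey : mean A (fun x => ∑ i ∈ T x, Real.log (psi (pr A J x i) (l x i) (x i)) +
      (if meas A ^ L' ≤ ∏ i ∈ T x, mu (l x i) (x i) then 0 else Real.log (meas A * θ))) =
      mean A (fun x => Real.log (gw A L' θ J T l x x *
        ((fib A J x).card * (fib A Jᶜ x).card / A.card))) +
      mean A (fun x => Real.log (A.card / ((fib A J x).card * (fib A Jᶜ x).card))) := by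
    unfold mean
    rw [← add_div, ← Finset.sum_add_distrib]
    congr 1
    refine Finset.sum_congr rfl fun x hx => ?_
    have h1 := gw_self_pos (L' := L') hk hA hθ J T l hx
    have h2 := fib_card_pos J hx
    have h3 := fib_card_pos Jᶜ hx
    refine (log_gw (L' := L') hk hA hθ J T l hx).symm.trans ?_
    rw [← Real.log_mul (by positivity) (by positivity)]
    congr 1
    field_simp
  rw [hkey, hD]
  linarith

end Pool.Agent.Grid.Ent
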