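import Pool.Agent.Lib.MP_d0893a_co.Ent.Num
import Pool.Agent.Lib.MP_d0893a_co.Ent.Ext

/-!
# Set functions with the local inequality (problem MP_d0893a_co)

Proof. `f = ext F / lam`. Averaging `h3` over `J` with weights `wt t J` gives for `t ∈ (0,1)`
`(1-t) f'(t) ≤ 1 - f(t) - f(1-t) + ε` (`hasDerivAt_ext`, `ext_compl`, `sum_wt`). Apply `num_half` to
`h(t) = f(t) - t^2 - ε/2` (note `t^2 + 2t(1-t) + (1-t)^2 = 1`): `f(1/√2) ≤ 1/2 + ε/2`.
Averaging `h1` with `t = 1/√2`: `1 - f(1/√2) ≤ (1 - 1/√2) K` (`sum_wt_compl`).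
Hence `(1-ε)/2 ≤ (1 - 1/√2) K`, and `1/(2(1-1/√2)) = 1 + 1/√2`.
-/

open Finset

namespace Pool.Agent.Grid.Ent

variable {n : ℕ}

theorem setfun (F : Finset (Fin n) → ℝ) (b : Fin n → ℝ) {lam ε K : ℝ} (hlam : 0 < lam)
    (h3 : ∀ J : Finset (Fin n), ∑ i ∈ Jᶜ, (F (insert i J) - F J) ≤ lam - F J - F Jᶜ + ε * lam)
    (h1 : ∀ J : Finset (Fin n), lam - F J ≤ ∑ i ∈ Jᶜ, b i)
    (hb : ∑ i, b i ≤ K * lam) : (1 + 1 / √2) * (1 - ε) ≤ K := by
  set S : ℝ → ℝ := fun t =>
    (∑ J : Finset (Fin n), wt t J * ∑ i ∈ Jᶜ, (F (insert i J) - F J)) / (1 - t) with hS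
  have key : ∀ t ∈ Set.Ioo (0 : ℝ) 1,
      (1 - t) * S t ≤ lam - ext F t - ext F (1 - t) + ε * lam := by
    intro t ht
    have ht' : 1 - t ≠ 0 := (sub_pos.2 ht.2).ne'
    have e1 : (1 - t) * S t =
        ∑ J : Finset (Fin n), wt t J * ∑ i ∈ Jᶜ, (F (insert i J) - F J) := by
      rw [hS]
      field_simp
    have e2 : ∑ J : Finset (Fin n), wt t J * (lam - F J - F Jᶜ + ε * lam) =
        lam - ext F t - ext F (1 - t) + ε * lam := by
      have e3 : ∀ J : Finset (Fin n), wt t J * (lam - F J - F Jᶜ + ε * lam) =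
          wt t J * (lam + ε * lam) - wt t J * F J - wt t J * F Jᶜ := fun J => by ring
      simp only [e3]
      rw [Finset.sum_sub_distrib, Finset.sum_sub_distrib, ← Finset.sum_mul, sum_wt, ext_compl]
      unfold ext
      ring
    rw [e1, ← e2]
    exact Finset.sum_le_sum fun J _ =>
      mul_le_mul_of_nonneg_left (h3 J) (wt_nonneg ht.1.le ht.2.le J)
  have hhalf := num_half (fun t => ext F t / lam - t ^ 2 - ε / 2) (fun t => S t / lam - 2 * t)
    (fun t ht => by
      have h4 := ((hasDerivAt_ext F ht.2.ne).div_const lam).sub ((hasDerivAt_id t).pow 2)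
      refine (h4.sub_const (ε / 2)).congr_deriv ?_
      simp [hS])
    (fun t ht => by
      have h4 := key t ht
      have h5 : ext F t / lam + (1 - t) * (S t / lam) + ext F (1 - t) / lam ≤ 1 + ε := by
        have h6 : ext F t / lam + (1 - t) * (S t / lam) + ext F (1 - t) / lam =
            (ext F t + (1 - t) * S t + ext F (1 - t)) / lam := by ring
        rw [h6, div_le_iff₀ hlam]
        linarith
      nlinarith)
  set r : ℝ := 1 / √2 with hr
  have hs : (√2 : ℝ) ^ 2 = 2 := Real.sq_sqrt (by norm_num)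
  have hs0 : (0 : ℝ) < √2 := by positivity
  have hr0 : 0 < r := by positivity
  have hr2 : r ^ 2 = 1 / 2 := by rw [hr, div_pow, hs]; norm_num
  have hr1 : r < 1 := by nlinarith
  rw [hr2] at hhalf
  have h7 : lam - ext F r ≤ (1 - r) * (K * lam) := by
    have e1 : ∑ J : Finset (Fin n), wt r J * (lam - F J) = lam - ext F r := by
      simp only [mul_sub]
      rw [Finset.sum_sub_distrib, ← Finset.sum_mul, sum_wt, one_mul]
      rfl
    rw [← e1]
    refine le_trans (Finset.sum_le_sum fun J _ =>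
      mul_le_mul_of_nonneg_left (h1 J) (wt_nonneg hr0.le hr1.le J)) ?_
    rw [sum_wt_compl]
    exact mul_le_mul_of_nonneg_left hb (sub_nonneg.2 hr1.le)
  have h8 : 1 - ext F r / lam ≤ (1 - r) * K := by
    have e1 : 1 - ext F r / lam = (lam - ext F r) / lam := by field_simp
    rw [e1, div_le_iff₀ hlam]
    linarith
  have h9 : (1 - ε) / 2 ≤ (1 - r) * K := by linarith
  have h10 := mul_le_mul_of_nonneg_left h9 (show 0 ≤ 2 * (1 + r) by positivity)
  have h11 : 2 * (1 + r) * ((1 - r) * K) = K := by linear_combination (-2 * K) * hr2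
  rw [h11] at h10
  linarith

end Pool.Agent.Grid.Ent
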