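import Pool.Agent.Lib.MP_d0893a_co.Ent.Gibbs
import Pool.Agent.Lib.MP_d0893a_co.Ent.Bd

/-!
# The local inequality (problem MP_d0893a_co)

Proof. Let `lam = D A univ = -log (meas A) ≥ log 2`, `R_i x = rel (pr A J x i)`, `G_i x = Gs A J x i`.
Fix `τ ∈ (0,1)`, `η`, `θ ∈ (0,1)`, and let `C` be the constant of `exists_partition` for `η`.
`T x = {i ∈ Jᶜ : R_i x ≥ τ^2}`, `l x i` = the partition for `pr A J x i` (a choice depending only on
the function `pr A J x i`, so only on `x` on `J`).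
(a) `Σ_{i∈Jᶜ} (D (insert i J) - D J) = mean Σ_{i∈Jᶜ} R_i` (`D_insert`), at most `lam` (`D_sum_le`).
(b) `i ∈ Jᶜ \ T x`: `R_i x ≤ τ G_i x` (if `G_i ≤ τ` by `rel_pr_le`; if `G_i > τ`, `R_i < τ^2`).
    `mean Σ_i G_i ≤ k |∂A| / |A| ≤ K e lam` (`mean_Gs`, `sum_gs_le`).
(c) `i ∈ T x`: `R_i x ≤ Σ_a pr a log (psi a) + η`, and `|T x| τ^2 ≤ Σ_{i∈T x} R_i x`; `mean_tower`
    turns `mean Σ_{i∈T x} Σ_a pr a log psi a` into `mean Σ_{i∈T x} log (psi .. (x i))`.
(d) bad event: `Σ_{i∈T x} log (1/mu (x i)) > L' lam`; by Markov and `mean_tower` its probability is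
    at most `C (1 + 1/τ^2) / L'`; there the function of `gibbs_step` is `log (meas A θ)`
    `= -(lam + log (1/θ))`.
(e) `log (meas A^(-γ) + θ) ≤ γ lam + θ`.
Together: the left side is at most `D univ - D J - D Jᶜ` plus
`τ K e lam + η lam / τ^2 + (lam + log (1/θ)) C (1 + 1/τ^2) / L' + γ lam + θ`.
Choose `τ`, then `η`, `θ`, `γ`, then `L'`; use `1 ≤ lam / log 2`.
-/

open Finset

namespace Pool.Agent.Grid.Ent

private theorem mean_add' {k n : ℕ} (A : Finset (Fin n → Fin k)) (f g : (Fin n → Fin k) → ℝ) :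
    mean A (fun x => f x + g x) = mean A f + mean A g := by
  unfold mean
  rw [sum_add_distrib, add_div]

private theorem mean_sub' {k n : ℕ} (A : Finset (Fin n → Fin k)) (f g : (Fin n → Fin k) → ℝ) :
    mean A (fun x => f x - g x) = mean A f - mean A g := by
  unfold mean
  rw [sum_sub_distrib, sub_div]

private theorem mean_smul' {k n : ℕ} (A : Finset (Fin n → Fin k)) (c : ℝ)
    (f : (Fin n → Fin k) → ℝ) :
    mean A (fun x => c * f x) = c * mean A f := by
  unfold mean
  rw [← mul_sum, mul_div_assoc]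

private theorem mean_sum' {k n : ℕ} {ι : Type*} (A : Finset (Fin n → Fin k)) (s : Finset ι)
    (f : ι → (Fin n → Fin k) → ℝ) :
    mean A (fun x => ∑ i ∈ s, f i x) = ∑ i ∈ s, mean A (f i) := by
  unfold mean
  rw [sum_comm, sum_div]

/-- the tower property for a sum over a random index set contained in `Jᶜ` -/
private theorem tower_sum {k n : ℕ} (A : Finset (Fin n → Fin k)) (J : Finset (Fin n))
    (T : (Fin n → Fin k) → Finset (Fin n)) (hTJ : ∀ x, T x ⊆ Jᶜ)
    (hT : ∀ x y, (∀ j ∈ J, x j = y j) → T x = T y)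
    (h : Fin n → (Fin n → Fin k) → Fin k → ℝ)
    (hh : ∀ i x y, (∀ j ∈ J, x j = y j) → h i x = h i y) :
    mean A (fun x => ∑ i ∈ T x, h i x (x i)) =
      mean A (fun x => ∑ i ∈ T x, ∑ a, pr A J x i a * h i x a) := by
  have e1 : ∀ (g : Fin n → (Fin n → Fin k) → ℝ) (x : Fin n → Fin k),
      ∑ i ∈ T x, g i x = ∑ i ∈ Jᶜ, (if i ∈ T x then g i x else 0) := by
    intro g x
    rw [← sum_filter]
    congr 1
    ext i
    simp only [mem_filter]
    constructor
    · intro hi
      exact ⟨hTJ x hi, hi⟩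
    · intro hi
      exact hi.2
  have e2 : (fun x => ∑ i ∈ T x, h i x (x i)) =
      fun x => ∑ i ∈ Jᶜ, (if i ∈ T x then h i x (x i) else 0) := by
    funext x
    exact e1 (fun i x => h i x (x i)) x
  have e3 : (fun x => ∑ i ∈ T x, ∑ a, pr A J x i a * h i x a) =
      fun x => ∑ i ∈ Jᶜ, (if i ∈ T x then ∑ a, pr A J x i a * h i x a else 0) := by
    funext x
    exact e1 (fun i x => ∑ a, pr A J x i a * h i x a) x
  rw [e2, e3, mean_sum', mean_sum']
  refine sum_congr rfl fun i _ => ?_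
  have := mean_tower A J i (fun x a => if i ∈ T x then h i x a else 0) (by
    intro x y hxy
    funext a
    rw [hT x y hxy, hh i x y hxy])
  rw [this]
  congr 1
  funext x
  by_cases hi : i ∈ T x
  · simp [hi]
  · simp [hi]

theorem local_ineq {K ε : ℝ} (hK : 0 < K) (hε : 0 < ε) :
    ∃ L' : ℝ, 0 < L' ∧ ∃ γ : ℝ, 0 < γ ∧ ∀ k n : ℕ, 0 < k → ∀ A : Finset (Fin n → Fin k),
      A.Nonempty → meas A ≤ 1 / 2 →
      (k : ℝ) * (edgeBoundary A).card ≤ K * Real.exp 1 * A.card * D A univ →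
      (∀ S : Fin n → Finset (Fin k), (Fintype.piFinset S).Nonempty →
        meas A ^ L' ≤ meas (Fintype.piFinset S) →
        ((A ∩ Fintype.piFinset S).card : ℝ) ≤ meas A ^ (1 - γ) * (Fintype.piFinset S).card) →
      ∀ J : Finset (Fin n), ∑ i ∈ Jᶜ, (D A (insert i J) - D A J) ≤
        D A univ - D A J - D A Jᶜ + ε * D A univ := by
  have hlog2 : 0 < Real.log 2 := Real.log_pos (by norm_num)
  set τ : ℝ := ε / (6 * (K * Real.exp 1)) with hτdef
  have hKe : 0 < K * Real.exp 1 := mul_pos hK (Real.exp_pos 1)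
  have hτ : 0 < τ := by positivity
  set η : ℝ := ε * τ ^ 2 / 6 with hηdef
  have hη : 0 < η := by positivity
  obtain ⟨C, hC, hpart⟩ := exists_partition hη
  set θ : ℝ := min (1 / 2) (ε / 6 * Real.log 2) with hθdef
  have hθ : 0 < θ := lt_min (by norm_num) (by positivity)
  have hθ1 : θ ≤ 1 / 2 := min_le_left _ _
  have hθ2 : θ ≤ ε / 6 * Real.log 2 := min_le_right _ _
  set Lθ : ℝ := -Real.log θ with hLθ
  have hLθ0 : 0 < Lθ := by
    have := Real.log_neg hθ (by linarith)
    linarith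
  set L' : ℝ := 6 * (C * (1 + 1 / τ ^ 2)) * (1 + Lθ / Real.log 2) / ε with hL'def
  have hL' : 0 < L' := by positivity
  refine ⟨L', hL', ε / 6, by positivity, ?_⟩
  intro k n hk A hA hα hbd hNI J
  classical
  set lam : ℝ := D A univ with hlam
  have hcard : (0 : ℝ) < A.card := by exact_mod_cast hA.card_pos
  have hkr : (0 : ℝ) < k := by exact_mod_cast hk
  have hmeas : 0 < meas A := by
    unfold meas
    positivity
  have hlam' : lam = -Real.log (meas A) := D_univ hk hA
  have hlam2 : Real.log 2 ≤ lam := by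
    rw [hlam']
    have : Real.log (meas A) ≤ Real.log (1 / 2) := Real.log_le_log hmeas hα
    rw [one_div, Real.log_inv] at this
    linarith
  have hlam0 : 0 < lam := by linarith
  -- the partitions
  have hp0 : ∀ p : Fin k → ℝ, ∃ l : Fin k → ℤ, ((∀ a, 0 ≤ p a) ∧ ∑ a, p a = 1) →
      rel p - η ≤ ∑ a, p a * Real.log (psi p l a) ∧
      ∑ a, p a * Real.log (1 / mu l a) ≤ C * (1 + rel p) := by
    intro p
    by_cases hp : (∀ a, 0 ≤ p a) ∧ ∑ a, p a = 1
    · obtain ⟨l, hl⟩ := hpart k hk p hp.1 hp.2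
      exact ⟨l, fun _ => hl⟩
    · exact ⟨fun _ => 0, fun h => absurd h hp⟩
  choose part hpt using hp0
  set R : Fin n → (Fin n → Fin k) → ℝ := fun i x => rel (pr A J x i) with hR
  set l : (Fin n → Fin k) → Fin n → Fin k → ℤ := fun x i => part (pr A J x i) with hldef
  set T : (Fin n → Fin k) → Finset (Fin n) :=
    fun x => Jᶜ.filter fun i => τ ^ 2 ≤ rel (pr A J x i) with hTdef
  have hTJ : ∀ x, T x ⊆ Jᶜ := fun x => filter_subset _ _
  have hTc : ∀ x y, (∀ j ∈ J, x j = y j) → T x = T y := by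
    intro x y hxy
    simp only [hTdef]
    rw [pr_congr A hxy]
  have hlc : ∀ x y, (∀ j ∈ J, x j = y j) → l x = l y := by
    intro x y hxy
    simp only [hldef]
    rw [pr_congr A hxy]
  have hpr : ∀ x ∈ A, ∀ i, (∀ a, 0 ≤ pr A J x i a) ∧ ∑ a, pr A J x i a = 1 :=
    fun x hx i => ⟨fun a => pr_nonneg A J x i a, sum_pr J hx i⟩
  have hRnn : ∀ x ∈ A, ∀ i, 0 ≤ R i x := by
    intro x hx i
    exact rel_nonneg hk (hpr x hx i).1 (hpr x hx i).2
  -- (a)
  have ha1 : ∑ i ∈ Jᶜ, (D A (insert i J) - D A J) = mean A (fun x => ∑ i ∈ Jᶜ, R i x) := by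
    rw [mean_sum']
    refine sum_congr rfl fun i hi => ?_
    exact D_insert hk hA (by simpa using hi)
  have ha2 : mean A (fun x => ∑ i ∈ Jᶜ, R i x) ≤ lam := by
    rw [← ha1]
    have := D_sum_le hk hA J
    have := D_nonneg hk hA J
    linarith
  have hTR : ∀ x ∈ A, ∑ i ∈ T x, R i x ≤ ∑ i ∈ Jᶜ, R i x := by
    intro x hx
    exact sum_le_sum_of_subset_of_nonneg (hTJ x) fun i _ _ => hRnn x hx i
  have hTRm : mean A (fun x => ∑ i ∈ T x, R i x) ≤ lam :=
    (mean_mono hTR).trans ha2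
  have hTcard : mean A (fun x => ((T x).card : ℝ)) ≤ lam / τ ^ 2 := by
    rw [le_div_iff₀ (by positivity)]
    rw [mul_comm, ← mean_smul']
    refine (mean_mono ?_).trans hTRm
    intro x _
    have : ∑ i ∈ T x, τ ^ 2 ≤ ∑ i ∈ T x, R i x := by
      refine sum_le_sum fun i hi => ?_
      exact (mem_filter.mp hi).2
    rw [sum_const, nsmul_eq_mul] at this
    linarith
  -- (b)
  have hGm : mean A (fun x => ∑ i, Gs A J x i) ≤ K * Real.exp 1 * lam := by
    rw [mean_sum']
    have h1 : ∑ i, mean A (fun x => Gs A J x i) = (∑ i, ∑ y ∈ A, gs A i y) / A.card := by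
      rw [sum_div]
      refine sum_congr rfl fun i _ => ?_
      rw [mean_Gs]
      rfl
    rw [h1, div_le_iff₀ hcard]
    have h2 := sum_gs_le hk A
    calc (∑ i, ∑ y ∈ A, gs A i y) ≤ k * (edgeBoundary A).card := h2
      _ ≤ K * Real.exp 1 * A.card * lam := hbd
      _ = K * Real.exp 1 * lam * A.card := by ring
  have hb : ∀ x ∈ A, ∑ i ∈ Jᶜ, R i x ≤ ∑ i ∈ T x, R i x + τ * ∑ i, Gs A J x i := by
    intro x hx
    have h1 : ∑ i ∈ Jᶜ, R i x = ∑ i ∈ T x, R i x +
        ∑ i ∈ Jᶜ.filter (fun i => ¬ τ ^ 2 ≤ rel (pr A J x i)), R i x := by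
      simp only [hTdef]
      rw [sum_filter_add_sum_filter_not]
    rw [h1, mul_sum]
    have h2 : ∑ i ∈ Jᶜ.filter (fun i => ¬ τ ^ 2 ≤ rel (pr A J x i)), R i x ≤
        ∑ i ∈ Jᶜ.filter (fun i => ¬ τ ^ 2 ≤ rel (pr A J x i)), τ * Gs A J x i := by
      refine sum_le_sum fun i hi => ?_
      rw [mem_filter] at hi
      have hiJ : i ∉ J := by simpa using hi.1
      have hlt : R i x < τ ^ 2 := not_le.mp hi.2
      have hG0 := Gs_nonneg A J x i
      rcases le_total (Gs A J x i) τ with hG | hG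
      · have h3 : R i x ≤ Gs A J x i ^ 2 := rel_pr_le hk hx hiJ
        nlinarith
      · nlinarith
    have h3 : ∑ i ∈ Jᶜ.filter (fun i => ¬ τ ^ 2 ≤ rel (pr A J x i)), τ * Gs A J x i ≤
        ∑ i, τ * Gs A J x i := by
      refine sum_le_sum_of_subset_of_nonneg (subset_univ _) fun i _ _ => ?_
      exact mul_nonneg hτ.le (Gs_nonneg A J x i)
    linarith
  have hbm : mean A (fun x => ∑ i ∈ Jᶜ, R i x) ≤
      mean A (fun x => ∑ i ∈ T x, R i x) + ε / 6 * lam := by
    refine (mean_mono hb).trans ?_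
    rw [mean_add', mean_smul']
    have h1 : τ * mean A (fun x => ∑ i, Gs A J x i) ≤ τ * (K * Real.exp 1 * lam) :=
      mul_le_mul_of_nonneg_left hGm hτ.le
    have h2 : τ * (K * Real.exp 1 * lam) = ε / 6 * lam := by
      rw [hτdef]
      field_simp
    linarith
  -- (c)
  have hc : mean A (fun x => ∑ i ∈ T x, R i x) ≤
      mean A (fun x => ∑ i ∈ T x, ∑ a, pr A J x i a * Real.log (psi (pr A J x i) (l x i) a)) +
        ε / 6 * lam := by
    have h1 : mean A (fun x => ∑ i ∈ T x, R i x) ≤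
        mean A (fun x => ∑ i ∈ T x, (∑ a, pr A J x i a *
          Real.log (psi (pr A J x i) (l x i) a)) + η * ((T x).card : ℝ)) := by
      refine mean_mono fun x hx => ?_
      have : ∑ i ∈ T x, R i x ≤ ∑ i ∈ T x, ((∑ a, pr A J x i a *
          Real.log (psi (pr A J x i) (l x i) a)) + η) := by
        refine sum_le_sum fun i _ => ?_
        have := (hpt (pr A J x i) (hpr x hx i)).1
        simp only [hR, hldef]
        linarith
      rw [sum_add_distrib, sum_const, nsmul_eq_mul] at this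
      linarith
    refine h1.trans ?_
    rw [mean_add', mean_smul']
    have h2 : η * mean A (fun x => ((T x).card : ℝ)) ≤ η * (lam / τ ^ 2) :=
      mul_le_mul_of_nonneg_left hTcard hη.le
    have h3 : η * (lam / τ ^ 2) = ε / 6 * lam := by
      rw [hηdef]
      field_simp
    linarith
  have hc2 : mean A (fun x => ∑ i ∈ T x, Real.log (psi (pr A J x i) (l x i) (x i))) =
      mean A (fun x => ∑ i ∈ T x, ∑ a, pr A J x i a *
        Real.log (psi (pr A J x i) (l x i) a)) := by
    refine tower_sum A J T hTJ hTc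
      (fun i x a => Real.log (psi (pr A J x i) (l x i) a)) ?_
    intro i x y hxy
    funext a
    rw [pr_congr A hxy, hlc x y hxy]
  -- (d)
  have hd0 : mean A (fun x => ∑ i ∈ T x, Real.log (1 / mu (l x i) (x i))) ≤
      C * (lam / τ ^ 2 + lam) := by
    have h0 : mean A (fun x => ∑ i ∈ T x, Real.log (1 / mu (l x i) (x i))) =
        mean A (fun x => ∑ i ∈ T x, ∑ a, pr A J x i a * Real.log (1 / mu (l x i) a)) := by
      refine tower_sum A J T hTJ hTc (fun i x a => Real.log (1 / mu (l x i) a)) ?_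
      intro i x y hxy
      funext a
      rw [hlc x y hxy]
    rw [h0]
    have h1 : mean A (fun x => ∑ i ∈ T x, ∑ a, pr A J x i a * Real.log (1 / mu (l x i) a)) ≤
        mean A (fun x => C * (((T x).card : ℝ) + ∑ i ∈ T x, R i x)) := by
      refine mean_mono fun x hx => ?_
      have h2 : ∑ i ∈ T x, ∑ a, pr A J x i a * Real.log (1 / mu (l x i) a) ≤
          ∑ i ∈ T x, C * (1 + R i x) := by
        refine sum_le_sum fun i _ => ?_
        exact (hpt (pr A J x i) (hpr x hx i)).2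
      rw [← mul_sum, sum_add_distrib, sum_const, nsmul_eq_mul, mul_one] at h2
      exact h2
    refine h1.trans ?_
    rw [mean_smul', mean_add']
    exact mul_le_mul_of_nonneg_left (add_le_add hTcard hTRm) hC.le
  set bad : (Fin n → Fin k) → Prop :=
    fun x => ¬ meas A ^ L' ≤ ∏ i ∈ T x, mu (l x i) (x i) with hbad
  have hd1 : mean A (fun x => if bad x then (1 : ℝ) else 0) * (L' * lam) ≤
      C * (lam / τ ^ 2 + lam) := by
    refine le_trans ?_ hd0
    rw [mul_comm, ← mean_smul']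
    refine mean_mono fun x _ => ?_
    have hlogsum : ∑ i ∈ T x, Real.log (1 / mu (l x i) (x i)) =
        -Real.log (∏ i ∈ T x, mu (l x i) (x i)) := by
      rw [Real.log_prod (fun i _ => (mu_pos (l x i) (x i)).ne'), ← sum_neg_distrib]
      refine sum_congr rfl fun i _ => ?_
      rw [one_div, Real.log_inv]
    by_cases hx : bad x
    · simp only [hx, if_true, mul_one]
      rw [hlogsum]
      have h1 : ∏ i ∈ T x, mu (l x i) (x i) ≤ meas A ^ L' := (not_le.mp hx).le
      have h2 : 0 < ∏ i ∈ T x, mu (l x i) (x i) := prod_pos fun i _ => mu_pos _ _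
      have h3 := Real.log_le_log h2 h1
      rw [Real.log_rpow hmeas] at h3
      rw [hlam']
      linarith
    · simp only [hx, if_false, mul_zero]
      refine sum_nonneg fun i _ => ?_
      rw [one_div, Real.log_inv]
      have := Real.log_nonpos (mu_pos (l x i) (x i)).le (mu_le_one (l x i) (x i))
      linarith
  have hg := gibbs_step hk hA hθ hNI J T l hTJ hTc hlc
  have hg2 : mean A (fun x => ∑ i ∈ T x, Real.log (psi (pr A J x i) (l x i) (x i)) +
      (if meas A ^ L' ≤ ∏ i ∈ T x, mu (l x i) (x i) then 0 else Real.log (meas A * θ))) =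
      mean A (fun x => ∑ i ∈ T x, Real.log (psi (pr A J x i) (l x i) (x i))) -
        (lam + Lθ) * mean A (fun x => if bad x then (1 : ℝ) else 0) := by
    rw [← mean_smul', ← mean_sub']
    congr 1
    funext x
    rw [Real.log_mul hmeas.ne' hθ.ne']
    by_cases hx : meas A ^ L' ≤ ∏ i ∈ T x, mu (l x i) (x i)
    · have hnb : ¬ bad x := fun h => h hx
      rw [if_pos hx, if_neg hnb, mul_zero, sub_zero, add_zero]
    · have hb2 : bad x := hx
      rw [if_neg hx, if_pos hb2, mul_one, hlam', hLθ]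
      ring
  rw [hg2] at hg
  have he : Real.log (meas A ^ (-(ε / 6)) + θ) ≤ ε / 6 * lam + θ := by
    have h1 : meas A ^ (-(ε / 6)) = Real.exp (ε / 6 * lam) := by
      rw [Real.rpow_def_of_pos hmeas, hlam']
      congr 1
      ring
    rw [h1]
    have h2 : 1 ≤ Real.exp (ε / 6 * lam) := Real.one_le_exp (by positivity)
    have h3 : Real.exp (ε / 6 * lam) + θ ≤ Real.exp (ε / 6 * lam + θ) := by
      rw [Real.exp_add]
      have h4 := Real.add_one_le_exp θ
      nlinarith
    calc Real.log (Real.exp (ε / 6 * lam) + θ) ≤ Real.log (Real.exp (ε / 6 * lam + θ)) :=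
          Real.log_le_log (by positivity) h3
      _ = ε / 6 * lam + θ := Real.log_exp _
  set Pb : ℝ := mean A (fun x => if bad x then (1 : ℝ) else 0) with hPb
  have hPb0 : 0 ≤ Pb := by
    rw [hPb]
    unfold mean
    refine div_nonneg (sum_nonneg fun x _ => ?_) hcard.le
    split_ifs <;> norm_num
  have hPb1 : (lam + Lθ) * Pb ≤ ε / 6 * lam := by
    have h1 : lam + Lθ ≤ lam * (1 + Lθ / Real.log 2) := by
      have h2 : Lθ ≤ lam * (Lθ / Real.log 2) := by
        rw [← mul_div_assoc, le_div_iff₀ hlog2]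
        nlinarith
      linarith
    have h3 : (lam + Lθ) * Pb ≤ lam * (1 + Lθ / Real.log 2) * Pb :=
      mul_le_mul_of_nonneg_right h1 hPb0
    have h4 : Pb * (L' * lam) ≤ C * (1 + 1 / τ ^ 2) * lam := by
      refine hd1.trans (le_of_eq ?_)
      ring
    have h5 : Pb * L' ≤ C * (1 + 1 / τ ^ 2) := by
      have h6 : Pb * L' * lam ≤ C * (1 + 1 / τ ^ 2) * lam := by linarith
      exact le_of_mul_le_mul_right h6 hlam0
    have h7 : Pb * L' = Pb * (6 * (C * (1 + 1 / τ ^ 2)) * (1 + Lθ / Real.log 2) / ε) := by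
      rw [hL'def]
    have hQ : 0 < C * (1 + 1 / τ ^ 2) := by positivity
    have h8 : Pb * (1 + Lθ / Real.log 2) ≤ ε / 6 := by
      have h9 : C * (1 + 1 / τ ^ 2) * (Pb * (1 + Lθ / Real.log 2)) ≤
          C * (1 + 1 / τ ^ 2) * (ε / 6) := by
        have h10 : Pb * (6 * (C * (1 + 1 / τ ^ 2)) * (1 + Lθ / Real.log 2) / ε) ≤
            C * (1 + 1 / τ ^ 2) := by rw [← h7]; exact h5
        have h11 : Pb * (6 * (C * (1 + 1 / τ ^ 2)) * (1 + Lθ / Real.log 2) / ε) =
            (C * (1 + 1 / τ ^ 2) * (Pb * (1 + Lθ / Real.log 2))) * (6 / ε) := by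
          ring
        rw [h11] at h10
        have h12 : (C * (1 + 1 / τ ^ 2) * (Pb * (1 + Lθ / Real.log 2))) * (6 / ε) * (ε / 6) ≤
            C * (1 + 1 / τ ^ 2) * (ε / 6) :=
          mul_le_mul_of_nonneg_right h10 (by positivity)
        have h13 : (C * (1 + 1 / τ ^ 2) * (Pb * (1 + Lθ / Real.log 2))) * (6 / ε) * (ε / 6) =
            C * (1 + 1 / τ ^ 2) * (Pb * (1 + Lθ / Real.log 2)) := by
          field_simp
        rw [h13] at h12
        exact h12
      exact le_of_mul_le_mul_left h9 hQ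
    calc (lam + Lθ) * Pb ≤ lam * (1 + Lθ / Real.log 2) * Pb := h3
      _ = lam * (Pb * (1 + Lθ / Real.log 2)) := by ring
      _ ≤ lam * (ε / 6) := mul_le_mul_of_nonneg_left h8 hlam0.le
      _ = ε / 6 * lam := by ring
  have hθl : θ ≤ ε / 6 * lam :=
    hθ2.trans (mul_le_mul_of_nonneg_left hlam2 (by positivity))
  rw [ha1]
  have hεl : 0 < ε * lam := mul_pos hε hlam0
  rw [hc2] at hg
  linarith [hbm, hc, hg, he, hPb1, hθl]

end Pool.Agent.Grid.Ent
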