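import Pool.Agent.Lib.MP_d0893a_co.Ent.Defs

/-!
# An upper bound for `mBound` (problem MP_d0893a_co)

`mBound_le`: if `r = ⌊log₂ (1/α)⌋ ≤ n` then, with `x = log (1/α) / r ∈ [log 2, 2 log 2]`,
`m(A) ≤ |A| r α^(-1/r) / k` and `r e^x ≤ 2 r x / log 2` by convexity of `exp` (equality at the
two ends), so `m(A) ≤ (2 / log 2) |A| log (1/α) / k`.
-/

open Finset

namespace Pool.Agent.Grid.Ent

private lemma meas_pos' {k n : ℕ} (hk : 0 < k) {A : Finset (Fin n → Fin k)} (hA : A.Nonempty) :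
    0 < meas A := by
  have hk' : (0 : ℝ) < k := Nat.cast_pos.2 hk
  have ha : (0 : ℝ) < A.card := by exact_mod_cast hA.card_pos
  unfold meas; positivity

private theorem rpow_identity' {a K : ℝ} (ha : 0 < a) (hK : 0 < K) {n r : ℕ} (hr : 0 < r) :
    a ^ (1 - 1 / (r : ℝ)) * r * K ^ ((n : ℝ) / r - 1)
      = a / K * (r * Real.exp (Real.log (1 / (a / K ^ n)) / r)) := by
  have hr' : (r : ℝ) ≠ 0 := by exact_mod_cast hr.ne'
  have h1 : a ^ (1 - 1 / (r : ℝ)) = a * Real.exp (-(Real.log a / r)) := by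
    rw [Real.rpow_sub ha, Real.rpow_one, Real.rpow_def_of_pos ha, Real.exp_neg, ← div_eq_mul_inv]
    congr 2
    ring
  have h2 : K ^ ((n : ℝ) / r - 1) = Real.exp (n * Real.log K / r) / K := by
    rw [Real.rpow_sub hK, Real.rpow_one, Real.rpow_def_of_pos hK]
    congr 2
    ring
  have h3 : Real.log (1 / (a / K ^ n)) = n * Real.log K - Real.log a := by
    rw [one_div_div, Real.log_div (by positivity) ha.ne', Real.log_pow]
  rw [h1, h2, h3]
  have h4 : (n * Real.log K - Real.log a) / r = -(Real.log a / r) + n * Real.log K / r := by ring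
  rw [h4, Real.exp_add]
  ring

private lemma exp_chord {x : ℝ} (h1 : Real.log 2 ≤ x) (h2 : x ≤ 2 * Real.log 2) :
    Real.exp x ≤ 2 / Real.log 2 * x := by
  have hl : 0 < Real.log 2 := Real.log_pos (by norm_num)
  set s : ℝ := (x - Real.log 2) / Real.log 2 with hs
  have hs0 : 0 ≤ s := div_nonneg (by linarith) hl.le
  have hs1 : s ≤ 1 := by rw [hs, div_le_one hl]; linarith
  have h3 := convexOn_exp.2 (Set.mem_univ (Real.log 2)) (Set.mem_univ (2 * Real.log 2))
    (sub_nonneg.2 hs1) hs0 (sub_add_cancel 1 s)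
  have h4 : (1 - s) • Real.log 2 + s • (2 * Real.log 2) = x := by
    rw [hs, smul_eq_mul, smul_eq_mul]; field_simp; ring
  have h5 : Real.exp (2 * Real.log 2) = 4 := by
    rw [two_mul, Real.exp_add, Real.exp_log (by norm_num)]; norm_num
  rw [h4, h5, Real.exp_log (by norm_num), smul_eq_mul, smul_eq_mul] at h3
  refine h3.trans (le_of_eq ?_)
  rw [hs]; field_simp; ring

theorem mBound_le {k n : ℕ} (hk : 0 < k) {A : Finset (Fin n → Fin k)} (hA : A.Nonempty)
    (hα : meas A ≤ 1 / 2) (hn : Real.log (1 / meas A) ≤ n * Real.log 2) :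
    mBound A ≤ 2 / Real.log 2 * (A.card / k) * Real.log (1 / meas A) := by
  have hl : 0 < Real.log 2 := Real.log_pos (by norm_num)
  have ha : (0 : ℝ) < A.card := by exact_mod_cast hA.card_pos
  have hk' : (0 : ℝ) < k := Nat.cast_pos.2 hk
  have hα0 : 0 < meas A := meas_pos' hk hA
  set lam := Real.log (1 / meas A) with hlam
  have hlam2 : Real.log 2 ≤ lam := by
    apply Real.log_le_log (by norm_num)
    rw [le_div_iff₀ hα0]
    linarith
  set r := ⌊lam / Real.log 2⌋₊ with hr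
  have hq1 : 1 ≤ lam / Real.log 2 := by rw [le_div_iff₀ hl]; linarith
  have hr1 : 1 ≤ r := Nat.le_floor (by simpa using hq1)
  have hr1' : (1 : ℝ) ≤ r := by exact_mod_cast hr1
  have hrle : (r : ℝ) ≤ lam / Real.log 2 := Nat.floor_le (by linarith)
  have hrlt : lam / Real.log 2 < r + 1 := Nat.lt_floor_add_one _
  have hrn : r ≤ n := by
    have h1 : lam / Real.log 2 ≤ n := by rw [div_le_iff₀ hl]; exact hn
    exact_mod_cast hrle.trans h1
  have hr0' : (0 : ℝ) < r := by linarith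
  rw [le_div_iff₀ hl] at hrle
  rw [div_lt_iff₀ hl] at hrlt
  have hx1 : Real.log 2 ≤ lam / r := by rw [le_div_iff₀ hr0']; linarith
  have hx2 : lam / r ≤ 2 * Real.log 2 := by
    rw [div_le_iff₀ hr0']
    nlinarith
  have hle : mBound A ≤ (A.card : ℝ) ^ (1 - 1 / (r : ℝ)) * (r : ℝ)
      * (k : ℝ) ^ ((n : ℝ) / (r : ℝ) - 1) := by
    refine csInf_le ?_ ⟨r, ⟨hr1, hrn⟩, rfl⟩
    refine ⟨0, ?_⟩
    rintro _ ⟨r, _, rfl⟩
    positivity
  rw [rpow_identity' ha hk' hr1] at hle
  refine hle.trans ?_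
  have h6 : Real.log (1 / ((A.card : ℝ) / (k : ℝ) ^ n)) = lam := rfl
  rw [h6]
  calc (A.card : ℝ) / k * (r * Real.exp (lam / r))
      ≤ (A.card : ℝ) / k * (r * (2 / Real.log 2 * (lam / r))) := by
        have := exp_chord hx1 hx2
        gcongr
    _ = 2 / Real.log 2 * (A.card / k) * lam := by
        field_simp

end Pool.Agent.Grid.Ent
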