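import Pool.Agent.Lib.MP_d0893a_co.Ent.Loc
import Pool.Agent.Lib.MP_d0893a_co.Ent.Half
import Pool.Agent.Lib.MP_d0893a_co.Small
import Pool.Agent.Lib.MP_d0893a_co.Ent.MBound

/-!
# Density increment for boundary ratio below `1 + 1/√2` (problem MP_d0893a_co)

* `main`: choose `ε` with `K < (1 + 1/√2)(1 - ε)` and take `L', γ` from `local_ineq`; if there is no
  product set as wanted then the hypothesis of `local_ineq` holds and `setfun` with
  `b i = D univ - D (univ.erase i)` (`D_univ_sub_le`, `beta_le`, `sum_gs_le`) gives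
  `(1 + 1/√2)(1 - ε) ≤ K`. (`K ≤ 0` is harmless: use `max K 1`.)
* `mBound_le`: if `r = ⌊log₂ (1/α)⌋ ≤ n` then, with `x = log (1/α) / r ∈ [log 2, 2 log 2]`,
  `m(A) ≤ |A| r α^(-1/r) / k` and `r e^x ≤ 2 r x / log 2` by convexity of `exp` (equality at the
  two ends), so `m(A) ≤ (2 / log 2) |A| log (1/α) / k`.
* `main_m`: for `L ≤ 8/5`, `K = 2 L / (e log 2) ≤ 1.6984 < 1 + 1/√2`. If `n < log₂ (1/α)`, i.e.
  `α < 2^(-n)`, use `small_step` (SmallSets) with `c = log 2`, as in `CubeReduction`.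
-/

open Finset

namespace Pool.Agent.Grid.Ent

private lemma meas_pos' {k n : ℕ} (hk : 0 < k) {A : Finset (Fin n → Fin k)} (hA : A.Nonempty) :
    0 < meas A := by
  have hk' : (0 : ℝ) < k := Nat.cast_pos.2 hk
  have ha : (0 : ℝ) < A.card := by exact_mod_cast hA.card_pos
  unfold meas; positivity

theorem main {K : ℝ} (hK : K < 1 + 1 / √2) :
    ∃ L' : ℝ, 0 < L' ∧ ∃ γ : ℝ, 0 < γ ∧ ∀ k n : ℕ, 0 < k → ∀ A : Finset (Fin n → Fin k),
      A.Nonempty → meas A ≤ 1 / 2 →
      ((edgeBoundary A).card : ℝ) ≤ K * (Real.exp 1 * (A.card / k) * Real.log (1 / meas A)) →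
      ∃ S : Fin n → Finset (Fin k), (Fintype.piFinset S).Nonempty ∧
        meas A ^ L' ≤ meas (Fintype.piFinset S) ∧
        meas A ^ (1 - γ) ≤
          ((A ∩ Fintype.piFinset S).card : ℝ) / ((Fintype.piFinset S).card : ℝ) := by
  have hs : (0 : ℝ) < 1 / √2 := by positivity
  set K1 : ℝ := max K 1 with hK1
  have hK1lt : K1 < 1 + 1 / √2 := max_lt hK (by linarith)
  have hK10 : 0 < K1 := lt_of_lt_of_le one_pos (le_max_right _ _)
  set B : ℝ := 1 + 1 / √2 with hB
  have hB0 : 0 < B := by linarith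
  set ε : ℝ := (1 - K1 / B) / 2 with hε
  have hlt1 : K1 / B < 1 := by rw [div_lt_one hB0]; exact hK1lt
  have hε0 : 0 < ε := by linarith
  have hBε : K1 < B * (1 - ε) := by
    have h1 : B * (1 - ε) = B / 2 + B * (K1 / B) / 2 := by rw [hε]; ring
    rw [mul_div_cancel₀ _ hB0.ne'] at h1
    rw [h1]; linarith
  obtain ⟨L', hL', γ, hγ, hloc⟩ := local_ineq hK10 hε0
  refine ⟨L', hL', γ, hγ, fun k n hk A hA hhalf hbd => ?_⟩
  by_contra hcon
  push Not at hcon
  have hk' : (0 : ℝ) < k := Nat.cast_pos.2 hk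
  have ha : (0 : ℝ) < A.card := by exact_mod_cast hA.card_pos
  have hα0 : 0 < meas A := meas_pos' hk hA
  have he : 0 < Real.exp 1 := Real.exp_pos 1
  have hDu := D_univ hk hA
  have hlog : Real.log (1 / meas A) = D A univ := by
    rw [hDu, one_div, Real.log_inv]
  have hlam : 0 < D A univ := by
    rw [← hlog]
    apply Real.log_pos
    rw [lt_div_iff₀ hα0]
    linarith
  rw [hlog] at hbd
  have hbd1 : ((edgeBoundary A).card : ℝ) ≤ K1 * (Real.exp 1 * (A.card / k) * D A univ) :=
    hbd.trans (mul_le_mul_of_nonneg_right (le_max_left _ _) (by positivity))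
  have hbd2 : (k : ℝ) * (edgeBoundary A).card ≤ K1 * Real.exp 1 * A.card * D A univ := by
    calc (k : ℝ) * (edgeBoundary A).card ≤ k * (K1 * (Real.exp 1 * (A.card / k) * D A univ)) :=
          mul_le_mul_of_nonneg_left hbd1 hk'.le
      _ = K1 * Real.exp 1 * A.card * D A univ := by field_simp
  have h3 := hloc k n hk A hA hhalf hbd2 (by
    intro S hS hSm
    have h4 := hcon S hS hSm
    have hc : (0 : ℝ) < ((Fintype.piFinset S).card : ℝ) := by exact_mod_cast hS.card_pos
    rw [div_lt_iff₀ hc] at h4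
    exact h4.le)
  have hfin := setfun (D A) (fun i => D A univ - D A (univ.erase i)) hlam h3
    (D_univ_sub_le hk hA) (K := K1) (by
      calc ∑ i, (D A univ - D A (univ.erase i))
          ≤ ∑ i, mean A (gs A i) / Real.exp 1 := Finset.sum_le_sum fun i _ => beta_le hk hA i
        _ = (∑ i, ∑ y ∈ A, gs A i y) / (A.card * Real.exp 1) := by
            unfold mean
            rw [Finset.sum_div]
            refine Finset.sum_congr rfl fun i _ => ?_
            rw [div_div]
        _ ≤ (k * (edgeBoundary A).card) / (A.card * Real.exp 1) := by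
            have := sum_gs_le hk A
            gcongr
        _ ≤ (K1 * Real.exp 1 * A.card * D A univ) / (A.card * Real.exp 1) := by gcongr
        _ = K1 * D A univ := by field_simp)
  linarith

theorem main_m {L : ℝ} (hL : L ≤ 8 / 5) :
    ∃ L' : ℝ, 0 < L' ∧ ∃ δ : ℝ, 0 < δ ∧
      ∀ k n : ℕ, 0 < k → 0 < n → ∀ A : Finset (Fin n → Fin k), meas A ≤ 1 / 2 →
        ((edgeBoundary A).card : ℝ) ≤ L * mBound A →
        ∃ S : Fin n → Finset (Fin k), (Fintype.piFinset S).Nonempty ∧
          meas A ^ L' ≤ meas (Fintype.piFinset S) ∧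
          (1 + δ) * meas A ≤
            ((A ∩ Fintype.piFinset S).card : ℝ) / ((Fintype.piFinset S).card : ℝ) := by
  have hl : 0 < Real.log 2 := Real.log_pos (by norm_num)
  have hl1 : Real.log 2 < 0.6931471808 := Real.log_two_lt_d9
  have hl2 : 0.6931471803 < Real.log 2 := Real.log_two_gt_d9
  have he1 : 2.7182818283 < Real.exp 1 := Real.exp_one_gt_d9
  have he0 : 0 < Real.exp 1 := Real.exp_pos 1
  set K : ℝ := 16 / 5 / (Real.exp 1 * Real.log 2) with hKdef
  have hK : K < 1 + 1 / √2 := by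
    have h1 : (1.884 : ℝ) < Real.exp 1 * Real.log 2 := by nlinarith
    have h2 : K < 1.7 := by
      rw [hKdef, div_lt_iff₀ (by positivity)]
      nlinarith
    have h3 : √2 < 1.42 := by
      rw [Real.sqrt_lt' (by norm_num)]; norm_num
    have h4 : (0.7 : ℝ) < 1 / √2 := by
      rw [lt_div_iff₀ (by positivity)]
      nlinarith
    linarith
  obtain ⟨L1, hL1, γ, hγ, hmain⟩ := main hK
  set η : ℝ := Real.log 2 / 16 with hη
  have hη0 : 0 < η := by positivity
  have hη8 : η ≤ 1 / 8 := by rw [hη]; linarith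
  set L2 : ℝ := 1 + Real.log (2 * (8 / 5) / η ^ 2) / Real.log 2 with hL2
  have h2γ : 1 < (2 : ℝ) ^ γ := Real.one_lt_rpow (by norm_num) hγ
  have hexp1 : 1 < Real.exp (Real.log 2 / 2) := Real.one_lt_exp_iff.2 (by positivity)
  refine ⟨max L1 L2, lt_of_lt_of_le hL1 (le_max_left _ _),
    min ((2 : ℝ) ^ γ - 1) (Real.exp (Real.log 2 / 2) - 1),
    lt_min (by linarith) (by linarith), fun k n hk hn A hhalf hbd => ?_⟩
  have hk' : (0 : ℝ) < k := Nat.cast_pos.2 hk
  set δ : ℝ := min ((2 : ℝ) ^ γ - 1) (Real.exp (Real.log 2 / 2) - 1) with hδ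
  rcases A.eq_empty_or_nonempty with h0 | hA
  · subst h0
    refine ⟨fun _ => univ, ?_, ?_, ?_⟩
    · exact ⟨fun _ => ⟨0, hk⟩, Fintype.mem_piFinset.2 fun _ => mem_univ _⟩
    · have h1 : meas (∅ : Finset (Fin n → Fin k)) = 0 := by simp [meas]
      rw [h1, Real.zero_rpow (lt_of_lt_of_le hL1 (le_max_left _ _)).ne']
      unfold meas; positivity
    · have h1 : meas (∅ : Finset (Fin n → Fin k)) = 0 := by simp [meas]
      rw [h1, mul_zero]
      positivity
  have hα0 : 0 < meas A := meas_pos' hk hA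
  have hα1 : meas A ≤ 1 := by linarith
  have hm0 : 0 ≤ mBound A := by
    unfold mBound
    apply Real.sInf_nonneg
    rintro _ ⟨r, _, rfl⟩
    positivity
  have hbd' : ((edgeBoundary A).card : ℝ) ≤ 8 / 5 * mBound A :=
    hbd.trans (mul_le_mul_of_nonneg_right hL hm0)
  have hloginv : Real.log (1 / meas A) = -Real.log (meas A) := by rw [one_div, Real.log_inv]
  rcases le_or_gt (Real.log (1 / meas A)) (n * Real.log 2) with hc | hc
  · -- the main case
    have hm := mBound_le hk hA hhalf hc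
    obtain ⟨S, hS, hS1, hS2⟩ := hmain k n hk A hA hhalf (by
      calc ((edgeBoundary A).card : ℝ) ≤ 8 / 5 * mBound A := hbd'
        _ ≤ 8 / 5 * (2 / Real.log 2 * (A.card / k) * Real.log (1 / meas A)) := by gcongr
        _ = K * (Real.exp 1 * (A.card / k) * Real.log (1 / meas A)) := by
            rw [hKdef]; field_simp; ring)
    refine ⟨S, hS, ?_, ?_⟩
    · exact (Real.rpow_le_rpow_of_exponent_ge hα0 hα1 (le_max_left _ _)).trans hS1
    · refine le_trans ?_ hS2
      have h1 : meas A ^ (1 - γ) = meas A * (1 / meas A) ^ γ := by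
        rw [Real.rpow_sub hα0, Real.rpow_one, one_div, Real.inv_rpow hα0.le]
        rfl
      rw [h1, mul_comm]
      apply mul_le_mul_of_nonneg_left _ hα0.le
      have h2 : (2 : ℝ) ≤ 1 / meas A := by rw [le_div_iff₀ hα0]; linarith
      calc 1 + δ ≤ (2 : ℝ) ^ γ := by
            have := min_le_left ((2 : ℝ) ^ γ - 1) (Real.exp (Real.log 2 / 2) - 1)
            rw [← hδ] at this
            linarith
        _ ≤ (1 / meas A) ^ γ := Real.rpow_le_rpow (by norm_num) h2 hγ.le
  · -- very small sets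
    have hsm : meas A ≤ Real.exp (-(Real.log 2 * n)) := by
      rw [← Real.log_le_iff_le_exp hα0]
      rw [hloginv] at hc
      linarith
    obtain ⟨S, hS1, hS2⟩ := small_step (L := 8 / 5) (c := Real.log 2) (η := η) (by norm_num) hl
      hη0 hη8 hk hn A hA hsm hbd'
    have hSpos : 0 < meas (Fintype.piFinset S) :=
      lt_of_lt_of_le (Real.rpow_pos_of_pos hα0 _) hS1
    refine ⟨S, ?_, ?_, ?_⟩
    · by_contra h
      rw [not_nonempty_iff_eq_empty] at h
      rw [h] at hSpos
      simp [meas] at hSpos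
    · exact (Real.rpow_le_rpow_of_exponent_ge hα0 hα1 (le_max_right _ _)).trans hS1
    · refine le_trans ?_ hS2
      have hn1 : (1 : ℝ) ≤ n := by exact_mod_cast hn
      calc (1 + δ) * meas A ≤ Real.exp (Real.log 2 / 2) * Real.exp (-(Real.log 2 * n)) := by
            have h1 := min_le_right ((2 : ℝ) ^ γ - 1) (Real.exp (Real.log 2 / 2) - 1)
            rw [← hδ] at h1
            have h2 : 0 ≤ Real.exp (Real.log 2 / 2) := (Real.exp_pos _).le
            gcongr
            linarith
        _ = Real.exp (Real.log 2 / 2 + -(Real.log 2 * n)) := by rw [Real.exp_add]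
        _ ≤ Real.exp (-(8 * η * n)) := by
            apply Real.exp_le_exp.2
            rw [hη]
            nlinarith

end Pool.Agent.Grid.Ent
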