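import Mathlib

/-!
# A differential inequality (problem MP_d0893a_co)

Proof. Put `a(t) = (1/2 - (1-t)^2) / (t (1-t))` and `Φ(t) = a(t) h(t) - a(1-t) h(1-t)` for
`t ∈ [1/2, 1/√2]`. With `w(t) = (1/2 - (1-t)^2)/(t (1-t)^2)` one has `a(t) = (1-t) w(t)`,
`a'(t) = (1/2 - t + t^2)/(t^2 (1-t)^2) = w(t) + w(1-t)`, hence
`Φ'(t) = w(t) [h(t) + (1-t) h'(t) + h(1-t)] + w(1-t) [h(1-t) + t h'(1-t) + h(t)] ≤ 0`
because `w(t), w(1-t) ≥ 0` for `1 - 1/√2 ≤ t ≤ 1/√2`. Also `Φ(1/2) = 0` and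
`Φ(1/√2) = 2 h(1/√2)` (as `a(1/√2) = 2`, `a(1 - 1/√2) = 0`). So `h(1/√2) ≤ 0`.
-/

namespace Pool.Agent.Grid.Ent

theorem num_half (h h' : ℝ → ℝ) (hd : ∀ t ∈ Set.Ioo (0 : ℝ) 1, HasDerivAt h (h' t) t)
    (hi : ∀ t ∈ Set.Ioo (0 : ℝ) 1, h t + (1 - t) * h' t + h (1 - t) ≤ 0) :
    h (1 / √2) ≤ 0 := by
  set r : ℝ := 1 / √2 with hr
  have hs : (√2 : ℝ) ^ 2 = 2 := Real.sq_sqrt (by norm_num)
  have hs0 : (0 : ℝ) < √2 := by positivity
  have hr0 : 0 < r := by positivity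
  have hr2 : r ^ 2 = 1 / 2 := by rw [hr, div_pow, hs]; norm_num
  have hr1 : r < 1 := by nlinarith
  have hrh : 1 / 2 < r := by nlinarith
  let A : ℝ → ℝ := fun t => (1 / 2 - (1 - t) ^ 2) / (t * (1 - t))
  let A' : ℝ → ℝ := fun t => (1 / 2 - t + t ^ 2) / (t ^ 2 * (1 - t) ^ 2)
  have hA : ∀ t ∈ Set.Ioo (0 : ℝ) 1, HasDerivAt A (A' t) t := by
    intro t ht
    have ht0 : t ≠ 0 := ht.1.ne'
    have ht1 : 1 - t ≠ 0 := (sub_pos.2 ht.2).ne'
    have h1 : HasDerivAt (fun t : ℝ => 1 / 2 - (1 - t) ^ 2) (2 * (1 - t)) t := by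
      have h2 := (((hasDerivAt_id t).const_sub 1).pow 2).const_sub (1 / 2)
      refine h2.congr_deriv ?_
      simp
    have h2 : HasDerivAt (fun t : ℝ => t * (1 - t)) (1 - 2 * t) t := by
      have h3 := (hasDerivAt_id t).mul ((hasDerivAt_id t).const_sub 1)
      refine h3.congr_deriv ?_
      simp
      ring
    refine (h1.div h2 (mul_ne_zero ht0 ht1)).congr_deriv ?_
    change _ = (1 / 2 - t + t ^ 2) / (t ^ 2 * (1 - t) ^ 2)
    rw [div_eq_div_iff (by positivity) (by positivity)]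
    ring
  let Φ : ℝ → ℝ := fun t => A t * h t - A (1 - t) * h (1 - t)
  have hΦ : ∀ t ∈ Set.Ioo (0 : ℝ) 1, HasDerivAt Φ
      (A' t * h t + A t * h' t + (A' (1 - t) * h (1 - t) + A (1 - t) * h' (1 - t))) t := by
    intro t ht
    have ht' : 1 - t ∈ Set.Ioo (0 : ℝ) 1 := ⟨by linarith [ht.2], by linarith [ht.1]⟩
    have h1 := (hA t ht).mul (hd t ht)
    have h2 := (hA _ ht').mul (hd _ ht')
    have h3 : HasDerivAt (fun t : ℝ => 1 - t) (-1) t := by
      simpa using (hasDerivAt_id t).const_sub 1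
    have h4 := HasDerivAt.comp t h2 h3
    refine (h1.sub h4).congr_deriv ?_
    ring
  have hanti : AntitoneOn Φ (Set.Icc (1 / 2) r) := by
    refine antitoneOn_of_deriv_nonpos (convex_Icc _ _) ?_ ?_ ?_
    · intro t ht
      exact (hΦ t ⟨by linarith [ht.1], by linarith [ht.2]⟩).continuousAt.continuousWithinAt
    · intro t ht
      rw [interior_Icc] at ht
      exact (hΦ t ⟨by linarith [ht.1], by linarith [ht.2]⟩).differentiableAt.differentiableWithinAt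
    · intro t ht
      rw [interior_Icc] at ht
      have htm : t ∈ Set.Ioo (0 : ℝ) 1 := ⟨by linarith [ht.1], by linarith [ht.2]⟩
      have ht' : 1 - t ∈ Set.Ioo (0 : ℝ) 1 := ⟨by linarith [htm.2], by linarith [htm.1]⟩
      rw [(hΦ t htm).deriv]
      have ht0 : 0 < t := htm.1
      have ht1 : 0 < 1 - t := ht'.1
      have e1 := hi t htm
      have e2 := hi (1 - t) ht'
      rw [sub_sub_cancel] at e2
      have hw1 : 0 ≤ (1 / 2 - (1 - t) ^ 2) / (t * (1 - t) ^ 2) := by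
        refine div_nonneg ?_ (by positivity)
        nlinarith [ht.1]
      have hw2 : 0 ≤ (1 / 2 - t ^ 2) / (t ^ 2 * (1 - t)) := by
        refine div_nonneg ?_ (by positivity)
        nlinarith [ht.2]
      have key : A' t * h t + A t * h' t + (A' (1 - t) * h (1 - t) + A (1 - t) * h' (1 - t))
          = (1 / 2 - (1 - t) ^ 2) / (t * (1 - t) ^ 2) * (h t + (1 - t) * h' t + h (1 - t))
          + (1 / 2 - t ^ 2) / (t ^ 2 * (1 - t)) * (h (1 - t) + t * h' (1 - t) + h t) := by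
        change (1 / 2 - t + t ^ 2) / (t ^ 2 * (1 - t) ^ 2) * h t +
          (1 / 2 - (1 - t) ^ 2) / (t * (1 - t)) * h' t +
          ((1 / 2 - (1 - t) + (1 - t) ^ 2) / ((1 - t) ^ 2 * (1 - (1 - t)) ^ 2) * h (1 - t) +
          (1 / 2 - (1 - (1 - t)) ^ 2) / ((1 - t) * (1 - (1 - t))) * h' (1 - t)) = _
        rw [sub_sub_cancel]
        field_simp
        ring
      rw [key]
      have e3 := mul_nonpos_of_nonneg_of_nonpos hw1 e1
      have e4 := mul_nonpos_of_nonneg_of_nonpos hw2 e2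
      linarith
  have h1 := hanti (Set.left_mem_Icc.2 hrh.le) (Set.right_mem_Icc.2 hrh.le) hrh.le
  have h2 : Φ (1 / 2) = 0 := by
    change A (1 / 2) * h (1 / 2) - A (1 - 1 / 2) * h (1 - 1 / 2) = 0
    norm_num
  have h3 : Φ r = 2 * h r := by
    have e1 : A r = 2 := by
      change (1 / 2 - (1 - r) ^ 2) / (r * (1 - r)) = 2
      rw [div_eq_iff (by have := sub_pos.2 hr1; positivity)]
      linear_combination (1 : ℝ) * hr2
    have e2 : A (1 - r) = 0 := by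
      change (1 / 2 - (1 - (1 - r)) ^ 2) / ((1 - r) * (1 - (1 - r))) = 0
      rw [sub_sub_cancel, hr2]
      simp
    change A r * h r - A (1 - r) * h (1 - r) = 2 * h r
    rw [e1, e2]
    ring
  rw [h2, h3] at h1
  linarith

end Pool.Agent.Grid.Ent
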