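import Pool.Agent.Lib.MP_d0893a_co.Ent.Defs

/-!
# Conditional laws: basic facts (problem MP_d0893a_co)

`mean_tower`: `Σ_{x∈A} Σ_a pr A J x i a h x a = Σ_{x∈A} Σ_{y ∈ fib A J x} h x (y i) / |fib A J x|`;
swap the sums (`y ∈ fib A J x ↔ x ∈ fib A J y` for `x, y ∈ A`, and then the fibers and `h` agree).
`rel_nonneg`: `log z ≤ z - 1` applied to `z = 1/(k p a)`.
-/

open Finset

namespace Pool.Agent.Grid.Ent

variable {k n : ℕ}

theorem fib_congr (A : Finset (Fin n → Fin k)) {J : Finset (Fin n)} {x y : Fin n → Fin k}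
    (h : ∀ j ∈ J, x j = y j) : fib A J x = fib A J y := by
  unfold fib
  refine Finset.filter_congr (fun z _ => ?_)
  constructor
  · intro hz i hi
    rw [hz i hi, h i hi]
  · intro hz i hi
    rw [hz i hi, h i hi]

theorem pr_congr (A : Finset (Fin n → Fin k)) {J : Finset (Fin n)} {x y : Fin n → Fin k}
    (h : ∀ j ∈ J, x j = y j) : pr A J x = pr A J y := by
  funext i a
  unfold pr
  rw [fib_congr A h]

theorem mem_fib_self {A : Finset (Fin n → Fin k)} (J : Finset (Fin n)) {x : Fin n → Fin k}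
    (hx : x ∈ A) : x ∈ fib A J x := by
  unfold fib
  rw [Finset.mem_filter]
  exact ⟨hx, fun _ _ => rfl⟩

theorem fib_card_pos {A : Finset (Fin n → Fin k)} (J : Finset (Fin n)) {x : Fin n → Fin k}
    (hx : x ∈ A) : (0 : ℝ) < (fib A J x).card := by
  exact_mod_cast Finset.card_pos.2 ⟨x, mem_fib_self J hx⟩

theorem pr_nonneg (A : Finset (Fin n → Fin k)) (J : Finset (Fin n)) (x : Fin n → Fin k)
    (i : Fin n) (a : Fin k) : 0 ≤ pr A J x i a := by
  unfold pr
  positivity

theorem sum_pr {A : Finset (Fin n → Fin k)} (J : Finset (Fin n)) {x : Fin n → Fin k}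
    (hx : x ∈ A) (i : Fin n) : ∑ a, pr A J x i a = 1 := by
  unfold pr
  rw [← Finset.sum_div]
  have h1 : ∑ a, (((fib A J x).filter fun y => y i = a).card : ℝ) = (fib A J x).card := by
    have := Finset.card_eq_sum_card_fiberwise (f := fun y : Fin n → Fin k => y i)
      (s := fib A J x) (t := univ) (fun y _ => Finset.mem_coe.2 (mem_univ _))
    rw [this]
    push_cast
    rfl
  rw [h1]
  exact div_self (fib_card_pos J hx).ne'

theorem pr_pos {A : Finset (Fin n → Fin k)} (J : Finset (Fin n)) {x : Fin n → Fin k}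
    (hx : x ∈ A) (i : Fin n) : 0 < pr A J x i (x i) := by
  unfold pr
  refine div_pos ?_ (fib_card_pos J hx)
  have : x ∈ (fib A J x).filter fun y => y i = x i :=
    Finset.mem_filter.2 ⟨mem_fib_self J hx, rfl⟩
  exact_mod_cast Finset.card_pos.2 ⟨x, this⟩

theorem mean_fib (A : Finset (Fin n → Fin k)) (J : Finset (Fin n))
    (f : (Fin n → Fin k) → ℝ) :
    mean A (fun x => (∑ y ∈ fib A J x, f y) / (fib A J x).card) = mean A f := by
  unfold mean
  congr 1
  have h1 : ∀ x ∈ A, (∑ y ∈ fib A J x, f y) / (fib A J x).card =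
      ∑ y ∈ A, if (∀ i ∈ J, y i = x i) then f y / (fib A J y).card else 0 := by
    intro x _
    rw [← Finset.sum_filter, Finset.sum_div]
    change ∑ y ∈ fib A J x, f y / (fib A J x).card = ∑ y ∈ fib A J x, f y / (fib A J y).card
    refine Finset.sum_congr rfl (fun y hy => ?_)
    rw [fib_congr A (Finset.mem_filter.1 hy).2]
  rw [Finset.sum_congr rfl h1, Finset.sum_comm]
  refine Finset.sum_congr rfl (fun y hy => ?_)
  rw [← Finset.sum_filter, Finset.sum_const, nsmul_eq_mul]
  have h2 : (A.filter fun x => ∀ i ∈ J, y i = x i) = fib A J y := by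
    unfold fib
    refine Finset.filter_congr (fun x _ => ?_)
    exact ⟨fun h i hi => (h i hi).symm, fun h i hi => (h i hi).symm⟩
  rw [h2]
  have := (fib_card_pos J hy).ne'
  field_simp

theorem mean_tower (A : Finset (Fin n → Fin k)) (J : Finset (Fin n)) (i : Fin n)
    (h : (Fin n → Fin k) → Fin k → ℝ)
    (hh : ∀ x y, (∀ j ∈ J, x j = y j) → h x = h y) :
    mean A (fun x => h x (x i)) = mean A (fun x => ∑ a, pr A J x i a * h x a) := by
  rw [← mean_fib A J (fun x => h x (x i))]
  unfold mean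
  congr 1
  refine Finset.sum_congr rfl (fun x _ => ?_)
  have h1 : ∑ y ∈ fib A J x, h y (y i) = ∑ y ∈ fib A J x, h x (y i) := by
    refine Finset.sum_congr rfl (fun y hy => ?_)
    rw [hh y x (Finset.mem_filter.1 hy).2]
  beta_reduce
  rw [h1]
  rw [← Finset.sum_fiberwise_of_maps_to (s := fib A J x) (t := univ) (g := fun y => y i)
    (fun y _ => mem_univ _), Finset.sum_div]
  refine Finset.sum_congr rfl (fun a _ => ?_)
  have h2 : ∑ y ∈ (fib A J x).filter (fun y => y i = a), h x (y i) =
      (((fib A J x).filter fun y => y i = a).card : ℝ) * h x a := by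
    rw [Finset.sum_congr rfl (fun y hy => by rw [(Finset.mem_filter.1 hy).2])]
    rw [Finset.sum_const, nsmul_eq_mul]
  rw [h2]
  unfold pr
  ring

theorem rel_nonneg (hk : 0 < k) {p : Fin k → ℝ} (hp : ∀ a, 0 ≤ p a) (h1 : ∑ a, p a = 1) :
    0 ≤ rel p := by
  unfold rel
  have hk' : (0 : ℝ) < k := by exact_mod_cast hk
  have h2 : ∀ a, p a - 1 / k ≤ p a * Real.log (k * p a) := by
    intro a
    rcases (hp a).eq_or_lt with h0 | hpos
    · rw [← h0]
      have : (0 : ℝ) < 1 / k := by positivity
      simp only [zero_mul]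
      linarith
    · have hz : 0 < (k * p a)⁻¹ := by positivity
      have := Real.log_le_sub_one_of_pos hz
      rw [Real.log_inv] at this
      have h3 : 1 - (k * p a)⁻¹ ≤ Real.log (k * p a) := by linarith
      calc p a - 1 / k = p a * (1 - (k * p a)⁻¹) := by field_simp
        _ ≤ p a * Real.log (k * p a) := mul_le_mul_of_nonneg_left h3 hpos.le
  have h3 := Finset.sum_le_sum (fun a (_ : a ∈ (univ : Finset (Fin k))) => h2 a)
  rw [Finset.sum_sub_distrib, h1, Finset.sum_const, Finset.card_univ, Fintype.card_fin,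
    nsmul_eq_mul] at h3
  have h4 : (k : ℝ) * (1 / k) = 1 := by field_simp
  rw [h4] at h3
  linarith

theorem mean_mono {A : Finset (Fin n → Fin k)} {f g : (Fin n → Fin k) → ℝ}
    (h : ∀ x ∈ A, f x ≤ g x) : mean A f ≤ mean A g := by
  unfold mean
  exact div_le_div_of_nonneg_right (Finset.sum_le_sum h) (by positivity)

/-- Jensen: the mean of the logarithm is at most the logarithm of the mean -/
theorem mean_log_le {A : Finset (Fin n → Fin k)} (hA : A.Nonempty) {f : (Fin n → Fin k) → ℝ}
    (hf : ∀ x ∈ A, 0 < f x) {M : ℝ} (hM : mean A f ≤ M) :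
    mean A (fun x => Real.log (f x)) ≤ Real.log M := by
  have hcard : (0 : ℝ) < A.card := by exact_mod_cast Finset.card_pos.2 hA
  have hmpos : 0 < mean A f := by
    unfold mean
    exact div_pos (Finset.sum_pos hf hA) hcard
  have hM0 : 0 < M := hmpos.trans_le hM
  have h1 : ∀ x ∈ A, Real.log (f x) ≤ f x / M - 1 + Real.log M := by
    intro x hx
    have h2 := Real.log_le_sub_one_of_pos (div_pos (hf x hx) hM0)
    rw [Real.log_div (hf x hx).ne' hM0.ne'] at h2
    linarith
  refine (mean_mono h1).trans ?_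
  have h2 : mean A (fun x => f x / M - 1 + Real.log M) = mean A f / M - 1 + Real.log M := by
    unfold mean
    rw [Finset.sum_add_distrib, Finset.sum_sub_distrib, ← Finset.sum_div, Finset.sum_const,
      Finset.sum_const, nsmul_eq_mul, nsmul_eq_mul]
    field_simp
  rw [h2]
  have h3 : mean A f / M ≤ 1 := by
    rw [div_le_one hM0]
    exact hM
  linarith

end Pool.Agent.Grid.Ent
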