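import Pool.Agent.Lib.MP_d0893a_co.Ent.Defs
import Pool.Agent.Lib.MP_d0893a_co.Ent.Tower

/-!
# Level sets of a probability vector (problem MP_d0893a_co)

`exists_partition`. Put `d = η/2`, `η' = (η/4)^2` (if `η > 1` replace `η` by `1`), and
`l a = ⌊log (k p a) / d⌋` if `k p a ≥ η'`, and `l a = m₀ := ⌊log η' / d⌋ - 1` (smaller than all the
others) if `k p a < η'` (bottom class `B₀`).
First inequality: `psi a` is the mean over the class of `a` of `k p b`. Outside `B₀` all
`k p b` in the class are `≥ exp (d l)` and `k p a < exp (d (l+1))`, so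
`log (psi a) ≥ log (k p a) - d`. On `B₀`, with `P₀ = p(B₀) ≤ η'`:
`Σ_{B₀} p a log (psi a) = P₀ log (P₀/mu) ≥ P₀ log P₀ ≥ -2 √P₀ ≥ -2 √η' = -η/2`
(`x log (1/x) = 2 x log (1/√x) ≤ 2 √x`), and `Σ_{B₀} p a log (k p a) ≤ 0`.
Second inequality: `log (1/mu a) = log (psi a) + log (1/P a)`, `P a = p(class of a)`.
`log (psi a) ≤ log (k p a) + d` outside `B₀` and `≤ 0` on `B₀`; and
`-Σ_{B₀} p a log (k p a) ≤ 1` because `z log (1/z) ≤ 1`; so `Σ p a log (psi a) ≤ rel p + d + 1`.
Entropy of the class: for `P ∈ (0,1]`, `s ≥ 0`: `P log (1/P) ≤ P s + exp (-s)`; use `s = d |l|`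
and `Σ_{l ∈ ℤ} exp (-d |l|) < ∞`; and `Σ p a d |l a| ≤ Σ_{a ∉ B₀} p a |log (k p a)| + const`
`≤ rel p + const`.
-/

open Finset

namespace Pool.Agent.Grid.Ent

theorem psi_nonneg {k : ℕ} {p : Fin k → ℝ} (hp : ∀ a, 0 ≤ p a) (l : Fin k → ℤ) (a : Fin k) :
    0 ≤ psi p l a := by
  unfold psi mu
  exact div_nonneg (Finset.sum_nonneg fun b _ => hp b) (by positivity)

theorem psi_pos {k : ℕ} {p : Fin k → ℝ} (hp : ∀ a, 0 ≤ p a) (l : Fin k → ℤ) {a : Fin k}
    (ha : 0 < p a) : 0 < psi p l a := by
  have hk : 0 < k := a.pos
  have hk' : (0 : ℝ) < k := by exact_mod_cast hk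
  have hmem : a ∈ cls l a := by simp [cls]
  unfold psi mu
  refine div_pos ?_ (div_pos ?_ hk')
  · exact lt_of_lt_of_le ha (Finset.single_le_sum (f := p) (fun b _ => hp b) hmem)
  · exact_mod_cast Finset.card_pos.2 ⟨a, hmem⟩

theorem sum_psi {k : ℕ} (p : Fin k → ℝ) (l : Fin k → ℤ) :
    ∑ a, psi p l a = k * ∑ a, p a := by
  have h1 : ∀ a : Fin k, psi p l a =
      ∑ b, if l b = l a then p b * (k / (cls l b).card) else 0 := by
    intro a
    unfold psi mu
    rw [← Finset.sum_filter, div_eq_mul_inv, Finset.sum_mul]
    refine Finset.sum_congr rfl fun b hb => ?_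
    have hb' : l b = l a := by simpa [cls] using hb
    have hc : cls l b = cls l a := by unfold cls; rw [hb']
    rw [hc, inv_div]
  have h2 : ∀ b : Fin k, (∑ a, if l b = l a then p b * (k / (cls l b).card) else 0) =
      k * p b := by
    intro b
    rw [← Finset.sum_filter, Finset.sum_const, nsmul_eq_mul]
    have hc : (univ.filter fun a => l b = l a) = cls l b := by
      unfold cls
      ext a
      simp [eq_comm]
    have hpos : ((cls l b).card : ℝ) ≠ 0 := by
      have : 0 < (cls l b).card := Finset.card_pos.2 ⟨b, by simp [cls]⟩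
      positivity
    rw [hc]
    field_simp
  simp_rw [h1]
  rw [Finset.sum_comm, Finset.mul_sum]
  exact Finset.sum_congr rfl fun b _ => h2 b

theorem mu_pos {k : ℕ} (l : Fin k → ℤ) (a : Fin k) : 0 < mu l a := by
  have hk' : (0 : ℝ) < k := by exact_mod_cast a.pos
  unfold mu
  refine div_pos ?_ hk'
  exact_mod_cast Finset.card_pos.2 ⟨a, by simp [cls]⟩

theorem mu_le_one {k : ℕ} (l : Fin k → ℤ) (a : Fin k) : mu l a ≤ 1 := by
  have hk' : (0 : ℝ) < k := by exact_mod_cast a.pos
  unfold mu
  rw [div_le_one hk']
  have h := Finset.card_le_univ (cls l a)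
  rw [Fintype.card_fin] at h
  exact_mod_cast h

private theorem int_sum_bound {d : ℝ} (hd : 0 < d) : ∃ C1 : ℝ, 0 ≤ C1 ∧ ∀ S : Finset ℤ,
    ∑ c ∈ S, Real.exp (-(d * |(c : ℝ)|)) ≤ C1 := by
  have h0 : 0 ≤ Real.exp (-d) := (Real.exp_pos _).le
  have h1 : Real.exp (-d) < 1 := by
    rw [Real.exp_lt_one_iff]; linarith
  have hs : Summable (fun c : ℤ => Real.exp (-(d * |(c : ℝ)|))) := by
    refine Summable.of_nat_of_neg_add_one ?_ ?_
    · have : (fun m : ℕ => Real.exp (-(d * |(((m : ℤ)) : ℝ)|))) = fun m => Real.exp (-d) ^ m := by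
        funext m
        rw [← Real.exp_nat_mul]
        congr 1
        have : (0 : ℝ) ≤ m := Nat.cast_nonneg m
        push_cast
        rw [abs_of_nonneg this]
        ring
      rw [this]
      exact summable_geometric_of_lt_one h0 h1
    · have : (fun m : ℕ => Real.exp (-(d * |(((-((m : ℤ) + 1) : ℤ)) : ℝ)|)))
          = fun m => Real.exp (-d) * Real.exp (-d) ^ m := by
        funext m
        rw [← Real.exp_nat_mul, ← Real.exp_add]
        congr 1
        have : (0 : ℝ) ≤ (m : ℝ) + 1 := by positivity
        push_cast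
        rw [abs_neg, abs_of_nonneg this]
        ring
      rw [this]
      exact (summable_geometric_of_lt_one h0 h1).mul_left _
  refine ⟨∑' c : ℤ, Real.exp (-(d * |(c : ℝ)|)), tsum_nonneg fun c => (Real.exp_pos _).le, ?_⟩
  intro S
  exact hs.sum_le_tsum S (fun c _ => (Real.exp_pos _).le)

private theorem xlogx_ge {P : ℝ} (hP : 0 < P) : -(2 * Real.sqrt P) ≤ P * Real.log P := by
  have hs : 0 < Real.sqrt P := Real.sqrt_pos.2 hP
  have hsq : P = Real.sqrt P * Real.sqrt P := (Real.mul_self_sqrt hP.le).symm
  have hlog : Real.log P = 2 * Real.log (Real.sqrt P) := by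
    rw [Real.log_sqrt hP.le]; ring
  have h1 := Real.log_le_sub_one_of_pos (inv_pos.2 hs)
  rw [Real.log_inv] at h1
  have h2 : 1 - (Real.sqrt P)⁻¹ ≤ Real.log (Real.sqrt P) := by linarith
  rw [hlog]
  calc -(2 * Real.sqrt P) ≤ 2 * P * (1 - (Real.sqrt P)⁻¹) := by
        have h3 : P * (Real.sqrt P)⁻¹ = Real.sqrt P := by
          nth_rewrite 1 [hsq]
          field_simp
        have h4 : 2 * P * (1 - (Real.sqrt P)⁻¹) = 2 * P - 2 * (P * (Real.sqrt P)⁻¹) := by ring
        rw [h4, h3]
        linarith
    _ ≤ 2 * P * Real.log (Real.sqrt P) := mul_le_mul_of_nonneg_left h2 (by linarith)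
    _ = P * (2 * Real.log (Real.sqrt P)) := by ring

private theorem neg_xlogx_le {z : ℝ} (hz : 0 ≤ z) : -1 ≤ z * Real.log z := by
  rcases hz.eq_or_lt with h | h
  · rw [← h]; simp
  · have h1 := Real.log_le_sub_one_of_pos (inv_pos.2 h)
    rw [Real.log_inv] at h1
    have h2 : 1 - z⁻¹ ≤ Real.log z := by linarith
    have h3 := mul_le_mul_of_nonneg_left h2 h.le
    have h4 : z * (1 - z⁻¹) = z - 1 := by field_simp
    linarith

private theorem psi_eq {k : ℕ} (p : Fin k → ℝ) (l : Fin k → ℤ) (a : Fin k) :
    psi p l a = (∑ b ∈ cls l a, (k : ℝ) * p b) / (cls l a).card := by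
  unfold psi mu
  rw [← Finset.mul_sum, div_div_eq_mul_div]
  ring

private theorem psi_ge {k : ℕ} (p : Fin k → ℝ) (l : Fin k → ℤ) (a : Fin k) {c : ℝ}
    (h : ∀ b ∈ cls l a, c ≤ k * p b) : c ≤ psi p l a := by
  rw [psi_eq]
  have hpos : (0 : ℝ) < (cls l a).card := by
    exact_mod_cast Finset.card_pos.2 ⟨a, by simp [cls]⟩
  rw [le_div_iff₀ hpos]
  have := Finset.card_nsmul_le_sum (cls l a) (fun b => (k : ℝ) * p b) c h
  rw [nsmul_eq_mul] at this
  linarith

private theorem psi_le {k : ℕ} (p : Fin k → ℝ) (l : Fin k → ℤ) (a : Fin k) {c : ℝ}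
    (h : ∀ b ∈ cls l a, k * p b ≤ c) : psi p l a ≤ c := by
  rw [psi_eq]
  have hpos : (0 : ℝ) < (cls l a).card := by
    exact_mod_cast Finset.card_pos.2 ⟨a, by simp [cls]⟩
  rw [div_le_iff₀ hpos]
  have := Finset.sum_le_card_nsmul (cls l a) (fun b => (k : ℝ) * p b) c h
  rw [nsmul_eq_mul] at this
  linarith

theorem exists_partition {η : ℝ} (hη : 0 < η) : ∃ C : ℝ, 0 < C ∧ ∀ k : ℕ, 0 < k →
    ∀ p : Fin k → ℝ, (∀ a, 0 ≤ p a) → ∑ a, p a = 1 → ∃ l : Fin k → ℤ,
      rel p - η ≤ ∑ a, p a * Real.log (psi p l a) ∧
      ∑ a, p a * Real.log (1 / mu l a) ≤ C * (1 + rel p) := by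
  classical
  set e : ℝ := min η 1 with he
  have he0 : 0 < e := lt_min hη one_pos
  have he1 : e ≤ 1 := min_le_right _ _
  have heη : e ≤ η := min_le_left _ _
  set d : ℝ := e / 2 with hd
  have hd0 : 0 < d := by positivity
  set t : ℝ := (e / 4) ^ 2 with ht
  have ht0 : 0 < t := by positivity
  have ht1 : t < 1 := by
    rw [ht]
    nlinarith
  set L : ℝ := -Real.log t with hL
  have hL0 : 0 ≤ L := by
    have := Real.log_neg ht0 ht1
    rw [hL]; linarith
  obtain ⟨C1, hC1, hC1'⟩ := int_sum_bound hd0
  refine ⟨2 + 4 * d + 4 * L + C1, by positivity, ?_⟩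
  intro k hk p hp hsum
  have hk' : (0 : ℝ) < k := by exact_mod_cast hk
  set m0 : ℤ := ⌊Real.log t / d⌋ - 1 with hm0
  set l : Fin k → ℤ := fun a => if t ≤ k * p a then ⌊Real.log (k * p a) / d⌋ else m0 with hl
  have hgood : ∀ a, t ≤ k * p a → l a = ⌊Real.log (k * p a) / d⌋ := fun a ha => by
    rw [hl]; simp only; rw [if_pos ha]
  have hbad : ∀ a, ¬ t ≤ k * p a → l a = m0 := fun a ha => by
    rw [hl]; simp only; rw [if_neg ha]
  have hgt : ∀ a, t ≤ k * p a → m0 < l a := by
    intro a ha
    rw [hgood a ha, hm0]
    have h1 : Real.log t / d ≤ Real.log (k * p a) / d :=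
      div_le_div_of_nonneg_right (Real.log_le_log ht0 ha) hd0.le
    have h2 := Int.floor_le_floor h1
    omega
  have hmem : ∀ a b, b ∈ cls l a ↔ l b = l a := fun a b => by simp [cls]
  have hcls_good : ∀ a b, t ≤ k * p a → b ∈ cls l a → t ≤ k * p b := by
    intro a b ha hb
    by_contra hcon
    have h1 := (hmem a b).1 hb
    rw [hbad b hcon] at h1
    have := hgt a ha
    omega
  have hcls_bad : ∀ a b, ¬ t ≤ k * p a → b ∈ cls l a → ¬ t ≤ k * p b := by
    intro a b ha hb hcon
    have h1 := (hmem a b).1 hb
    rw [hbad a ha] at h1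
    have := hgt b hcon
    omega
  have hclose : ∀ a b, t ≤ k * p a → b ∈ cls l a →
      Real.log (k * p a) - d ≤ Real.log (k * p b) := by
    intro a b ha hb
    have hb' := hcls_good a b ha hb
    have h1 := (hmem a b).1 hb
    rw [hgood a ha, hgood b hb'] at h1
    have h2 := Int.floor_le (Real.log (k * p b) / d)
    have h3 := Int.lt_floor_add_one (Real.log (k * p a) / d)
    rw [← h1] at h3
    have h4 : Real.log (k * p a) / d - 1 ≤ Real.log (k * p b) / d := by linarith
    have h5 := mul_le_mul_of_nonneg_right h4 hd0.le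
    rw [sub_mul, div_mul_cancel₀ _ hd0.ne', div_mul_cancel₀ _ hd0.ne'] at h5
    linarith
  have hclose' : ∀ a b, t ≤ k * p a → b ∈ cls l a →
      Real.log (k * p b) ≤ Real.log (k * p a) + d := by
    intro a b ha hb
    have hb' := hcls_good a b ha hb
    have h1 := (hmem a b).1 hb
    have := hclose b a hb' ((hmem b a).2 h1.symm)
    linarith
  have hpsi_lo : ∀ a, t ≤ k * p a → Real.log (k * p a) - d ≤ Real.log (psi p l a) := by
    intro a ha
    have h1 : Real.exp (Real.log (k * p a) - d) ≤ psi p l a := by
      refine psi_ge p l a fun b hb => ?_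
      have hb' := hcls_good a b ha hb
      calc Real.exp (Real.log (k * p a) - d) ≤ Real.exp (Real.log (k * p b)) :=
            Real.exp_le_exp.2 (hclose a b ha hb)
        _ = k * p b := Real.exp_log (ht0.trans_le hb')
    have h2 := Real.log_le_log (Real.exp_pos _) h1
    rwa [Real.log_exp] at h2
  have hpsi_hi : ∀ a, t ≤ k * p a → Real.log (psi p l a) ≤ Real.log (k * p a) + d := by
    intro a ha
    have h1 : psi p l a ≤ Real.exp (Real.log (k * p a) + d) := by
      refine psi_le p l a fun b hb => ?_
      have hb' := hcls_good a b ha hb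
      calc k * p b = Real.exp (Real.log (k * p b)) := (Real.exp_log (ht0.trans_le hb')).symm
        _ ≤ Real.exp (Real.log (k * p a) + d) := Real.exp_le_exp.2 (hclose' a b ha hb)
    have hpa : 0 < p a := by
      have : 0 < k * p a := ht0.trans_le ha
      exact (pos_iff_pos_of_mul_pos this).1 hk'
    have h2 := Real.log_le_log (psi_pos hp l hpa) h1
    rwa [Real.log_exp] at h2
  have hpsi_bad : ∀ a, ¬ t ≤ k * p a → Real.log (psi p l a) ≤ 0 := by
    intro a ha
    have h1 : psi p l a ≤ 1 := by
      refine psi_le p l a fun b hb => ?_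
      have := hcls_bad a b ha hb
      push Not at this
      linarith
    exact Real.log_nonpos (psi_nonneg hp l a) h1
  have hneg : ∀ a, -(1 / (k : ℝ)) ≤ p a * Real.log (k * p a) := by
    intro a
    have h1 := neg_xlogx_le (mul_nonneg hk'.le (hp a))
    have h2 : p a * Real.log (k * p a) = (1 / k) * (k * p a * Real.log (k * p a)) := by
      field_simp
    rw [h2]
    have h3 : (0 : ℝ) ≤ 1 / k := by positivity
    nlinarith
  have hbadlog : ∀ a, ¬ t ≤ k * p a → p a * Real.log (k * p a) ≤ 0 := by
    intro a ha
    push Not at ha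
    exact mul_nonpos_of_nonneg_of_nonpos (hp a)
      (Real.log_nonpos (mul_nonneg hk'.le (hp a)) (by linarith))
  have hrel : rel p = ∑ a, p a * Real.log (k * p a) := rfl
  have hrel0 : 0 ≤ rel p := rel_nonneg hk hp hsum
  have hone : ∑ _a : Fin k, (1 / (k : ℝ)) = 1 := by
    rw [Finset.sum_const, Finset.card_univ, Fintype.card_fin, nsmul_eq_mul]
    field_simp
  refine ⟨l, ?_, ?_⟩
  · -- first inequality
    set B := univ.filter fun a : Fin k => ¬ t ≤ k * p a with hB
    set P0 : ℝ := ∑ a ∈ B, p a with hP0
    have hP0nn : 0 ≤ P0 := Finset.sum_nonneg fun a _ => hp a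
    have hP0t : P0 ≤ t := by
      calc P0 ≤ ∑ _a ∈ B, t / k := by
            refine Finset.sum_le_sum fun a ha => ?_
            rw [hB, Finset.mem_filter] at ha
            rw [le_div_iff₀ hk']
            have := ha.2
            push Not at this
            linarith
        _ = B.card * (t / k) := by rw [Finset.sum_const, nsmul_eq_mul]
        _ ≤ k * (t / k) := by
            refine mul_le_mul_of_nonneg_right ?_ (by positivity)
            have := Finset.card_le_univ B
            rw [Fintype.card_fin] at this
            exact_mod_cast this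
        _ = t := by field_simp
    have hcomp : ∀ a, p a * Real.log (k * p a) - d * p a +
        (if ¬ t ≤ k * p a then p a * Real.log P0 else 0) ≤ p a * Real.log (psi p l a) := by
      intro a
      by_cases ha : t ≤ k * p a
      · rw [if_neg (not_not.2 ha)]
        have := mul_le_mul_of_nonneg_left (hpsi_lo a ha) (hp a)
        linarith
      · rw [if_pos ha]
        rcases (hp a).eq_or_lt with h0 | hpos
        · rw [← h0]; simp
        have hclsB : cls l a = B := by
          ext b
          rw [hB, Finset.mem_filter]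
          constructor
          · intro hb; exact ⟨mem_univ _, hcls_bad a b ha hb⟩
          · rintro ⟨-, hb⟩
            rw [hmem, hbad a ha, hbad b hb]
        have hP0pos : 0 < P0 := by
          refine Finset.sum_pos' (fun b _ => hp b) ⟨a, ?_, hpos⟩
          rw [hB, Finset.mem_filter]; exact ⟨mem_univ _, ha⟩
        have h1 : P0 ≤ psi p l a := by
          unfold psi
          rw [hclsB]
          have h2 := mu_pos l a
          have h3 := mu_le_one l a
          rw [le_div_iff₀ h2]
          nlinarith
        have h2 := Real.log_le_log hP0pos h1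
        have h3 := mul_le_mul_of_nonneg_left h2 hpos.le
        have h4 := hbadlog a ha
        have h5 : 0 ≤ d * p a := by positivity
        linarith
    have hs := Finset.sum_le_sum fun a (_ : a ∈ (univ : Finset (Fin k))) => hcomp a
    rw [Finset.sum_add_distrib, Finset.sum_sub_distrib, ← Finset.mul_sum, hsum, ← hrel] at hs
    have h6 : ∑ a, (if ¬ t ≤ k * p a then p a * Real.log P0 else 0) = P0 * Real.log P0 := by
      rw [← Finset.sum_filter, hP0, Finset.sum_mul]
    rw [h6] at hs
    have h7 : -(e / 2) ≤ P0 * Real.log P0 := by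
      rcases hP0nn.eq_or_lt with h0 | hpos
      · rw [← h0]; simp only [zero_mul]; linarith
      · have h8 := xlogx_ge hpos
        have h9 : Real.sqrt P0 ≤ e / 4 := by
          rw [Real.sqrt_le_left (by positivity)]
          exact hP0t
        linarith
    linarith
  · -- second inequality
    set P : Fin k → ℝ := fun a => ∑ b ∈ cls l a, p b with hP
    have hPa : ∀ a, p a ≤ P a := fun a =>
      Finset.single_le_sum (f := p) (fun b _ => hp b) ((hmem a a).2 rfl)
    have hcomp : ∀ a, p a * Real.log (1 / mu l a) ≤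
        (p a * Real.log (k * p a) + d * p a + 1 / k) +
        (p a * Real.log (k * p a) + 1 / k + (2 * L + 2 * d) * p a) +
        p a / P a * Real.exp (-(d * |(l a : ℝ)|)) := by
      intro a
      rcases (hp a).eq_or_lt with h0 | hpos
      · rw [← h0]
        have : (0 : ℝ) < 1 / k := by positivity
        simp only [zero_mul, mul_zero, zero_div, add_zero, zero_add]
        linarith
      have hPpos : 0 < P a := hpos.trans_le (hPa a)
      have hmu := mu_pos l a
      have hlogmu : Real.log (1 / mu l a) = Real.log (psi p l a) - Real.log (P a) := by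
        have h1 : psi p l a = P a / mu l a := rfl
        rw [h1, Real.log_div hPpos.ne' hmu.ne', one_div, Real.log_inv]
        ring
      rw [hlogmu, mul_sub]
      have hU : p a * Real.log (psi p l a) ≤ p a * Real.log (k * p a) + d * p a + 1 / k := by
        by_cases ha : t ≤ k * p a
        · have h1 := mul_le_mul_of_nonneg_left (hpsi_hi a ha) hpos.le
          have : (0 : ℝ) < 1 / k := by positivity
          linarith
        · have h1 := mul_nonpos_of_nonneg_of_nonpos hpos.le (hpsi_bad a ha)
          have h2 := hneg a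
          have h3 : 0 ≤ d * p a := by positivity
          linarith
      have hW : -(Real.log (P a)) ≤ d * |(l a : ℝ)| + Real.exp (-(d * |(l a : ℝ)|)) / P a := by
        have h1 : 0 < Real.exp (-(d * |(l a : ℝ)|)) / P a := div_pos (Real.exp_pos _) hPpos
        have h2 := Real.log_le_sub_one_of_pos h1
        rw [Real.log_div (Real.exp_pos _).ne' hPpos.ne', Real.log_exp] at h2
        linarith
      have hV : p a * (d * |(l a : ℝ)|) ≤
          p a * Real.log (k * p a) + 1 / k + (2 * L + 2 * d) * p a := by
        by_cases ha : t ≤ k * p a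
        · have h1 : -L ≤ Real.log (k * p a) := by
            have := Real.log_le_log ht0 ha
            rw [hL]; linarith
          have h2 : d * |(l a : ℝ)| ≤ Real.log (k * p a) + 2 * L + d := by
            rw [hgood a ha]
            have h3 := Int.floor_le (Real.log (k * p a) / d)
            have h4 := Int.lt_floor_add_one (Real.log (k * p a) / d)
            have h5 : |(⌊Real.log (k * p a) / d⌋ : ℝ)| ≤ |Real.log (k * p a) / d| + 1 := by
              rw [abs_le]
              constructor
              · have := neg_abs_le (Real.log (k * p a) / d)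
                linarith
              · have := le_abs_self (Real.log (k * p a) / d)
                linarith
            have h6 := mul_le_mul_of_nonneg_left h5 hd0.le
            have h7 : d * |Real.log (k * p a) / d| = |Real.log (k * p a)| := by
              rw [abs_div, abs_of_pos hd0]
              field_simp
            have h8 : |Real.log (k * p a)| ≤ Real.log (k * p a) + 2 * L := by
              rw [abs_le]
              constructor <;> linarith
            rw [mul_add, h7, mul_one] at h6
            linarith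
          have h3 := mul_le_mul_of_nonneg_left h2 hpos.le
          have h4 : (0 : ℝ) < 1 / k := by positivity
          have h5 : 0 ≤ d * p a := by positivity
          nlinarith
        · have h2 : d * |(l a : ℝ)| ≤ L + 2 * d := by
            rw [hbad a ha, hm0]
            have h3 := Int.floor_le (Real.log t / d)
            have h4 := Int.lt_floor_add_one (Real.log t / d)
            have h5 : |(((⌊Real.log t / d⌋ - 1 : ℤ)) : ℝ)| ≤ |Real.log t / d| + 2 := by
              push_cast
              rw [abs_le]
              constructor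
              · have := neg_abs_le (Real.log t / d)
                linarith
              · have := le_abs_self (Real.log t / d)
                linarith
            have h6 := mul_le_mul_of_nonneg_left h5 hd0.le
            have h7 : d * |Real.log t / d| = L := by
              rw [abs_div, abs_of_pos hd0, hL, abs_of_nonpos (by linarith)]
              field_simp
            rw [mul_add, h7] at h6
            linarith
          have h3 := mul_le_mul_of_nonneg_left h2 hpos.le
          have h4 := hneg a
          have h5 : 0 ≤ L * p a := by positivity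
          nlinarith
      have hW' := mul_le_mul_of_nonneg_left hW hpos.le
      have h9 : p a * (d * |(l a : ℝ)| + Real.exp (-(d * |(l a : ℝ)|)) / P a) =
          p a * (d * |(l a : ℝ)|) + p a / P a * Real.exp (-(d * |(l a : ℝ)|)) := by
        field_simp
      rw [h9] at hW'
      linarith
    have hs := Finset.sum_le_sum fun a (_ : a ∈ (univ : Finset (Fin k))) => hcomp a
    have hsumP : ∑ a, p a / P a * Real.exp (-(d * |(l a : ℝ)|)) ≤ C1 := by
      refine le_trans ?_ (hC1' (univ.image l))
      rw [← Finset.sum_fiberwise_of_maps_to (s := univ) (t := univ.image l) (g := l)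
        (fun a _ => Finset.mem_image_of_mem l (mem_univ a))]
      refine Finset.sum_le_sum fun c hc => ?_
      obtain ⟨a0, -, ha0⟩ := Finset.mem_image.1 hc
      have h1 : ∑ a ∈ univ.filter (fun a => l a = c), p a / P a * Real.exp (-(d * |(l a : ℝ)|))
          = (∑ a ∈ univ.filter (fun a => l a = c), p a) / P a0 * Real.exp (-(d * |(c : ℝ)|)) := by
        rw [Finset.sum_div, Finset.sum_mul]
        refine Finset.sum_congr rfl fun a ha => ?_
        have hla : l a = c := (Finset.mem_filter.1 ha).2
        have hPeq : P a = P a0 := by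
          rw [hP]
          simp only
          congr 1
          unfold cls
          rw [hla, ha0]
        rw [hPeq, hla]
      have h2 : (∑ a ∈ univ.filter (fun a => l a = c), p a) = P a0 := by
        rw [hP]
        simp only
        unfold cls
        rw [ha0]
      rw [h1, h2]
      have h3 : P a0 / P a0 ≤ 1 := div_self_le_one _
      have h4 := mul_le_mul_of_nonneg_right h3 (Real.exp_pos (-(d * |(c : ℝ)|))).le
      linarith
    have hsplit : ∑ a, ((p a * Real.log (k * p a) + d * p a + 1 / k) +
        (p a * Real.log (k * p a) + 1 / k + (2 * L + 2 * d) * p a) +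
        p a / P a * Real.exp (-(d * |(l a : ℝ)|))) =
        (rel p + d + 1) + (rel p + 1 + (2 * L + 2 * d)) +
        ∑ a, p a / P a * Real.exp (-(d * |(l a : ℝ)|)) := by
      simp only [Finset.sum_add_distrib, ← Finset.mul_sum, hsum, hone, hrel, mul_one]
    rw [hsplit] at hs
    have hC : 0 ≤ (2 * L + 3 * d + C1) * rel p := by positivity
    nlinarith

end Pool.Agent.Grid.Ent
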